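import Mathlib
import Pool.Graph.R_seed8.R202.Rot

/-!
# Rigidity of multiplications by the differences and one kind of longer sums of a sequence

If two probability measures `μ`, `ν` on the circle are such that `ν` is the image of `μ` under the
multiplications by all the differences `m a - m b` of one sequence of integers and by all the sums
`± m (f 0) ± ... ± m (f (t - 1))` of `t ≥ 3` terms with fixed signs and distinct indices, then `ν` is a
combination of the unit mass at `0` and Lebesgue measure. No ergodicity, entropy, or growth.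
-/

set_option autoImplicit false

open MeasureTheory Filter Topology Set
open scoped ENNReal

namespace Pool.Agent.Results.MP_96e181_an.DifferencesAndSums

open Classical in
/-- The total weight `w i * w j` of the pairs `(i, j)` for which the image of `μ` under
multiplication by `m i - m j` is not `ν`. -/
noncomputable def badPairs {ι : Type} [Fintype ι] (μ ν : Measure UnitAddCircle) (m : ι → ℤ)
    (w : ι → ℝ) : ℝ :=
  ∑ q : ι × ι, if μ.map (fun x : UnitAddCircle => (m q.1 - m q.2) • x) = ν then 0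
    else w q.1 * w q.2

open Classical in
/-- The total weight `w (f 0) * ... * w (f (t - 1))` of the `t`-tuples `f` for which the image of
`μ` under multiplication by `σ 0 * m (f 0) + ... + σ (t - 1) * m (f (t - 1))` is not `ν`. -/
noncomputable def badTuples {ι : Type} [Fintype ι] {t : ℕ} (σ : Fin t → ℤ)
    (μ ν : Measure UnitAddCircle) (m : ι → ℤ) (w : ι → ℝ) : ℝ :=
  ∑ f : Fin t → ι, if μ.map (fun x : UnitAddCircle => (∑ i, σ i * m (f i)) • x) = ν then 0
    else ∏ i, w (f i)

lemma norm_fourier (n : ℤ) (x : UnitAddCircle) : ‖(fourier n x : ℂ)‖ = 1 := by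
  rw [fourier_apply]
  exact Circle.norm_coe _

lemma measurable_smul_int (m : ℤ) : Measurable fun x : UnitAddCircle => m • x :=
  (continuous_zsmul m).measurable

lemma int_map {μ ν : Measure UnitAddCircle} (m : ℤ) (h : μ.map (fun x => m • x) = ν) {E : Type*}
    [NormedAddCommGroup E] [NormedSpace ℝ E] [SecondCountableTopology E] (f : UnitAddCircle → E)
    (hf : Continuous f) :
    ∫ x, f (m • x) ∂μ = ∫ x, f x ∂ν := by
  rw [← h, integral_map (measurable_smul_int m).aemeasurable]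
  exact hf.aestronglyMeasurable

lemma prod_fourier {J : Type} (F : Finset J) (a : J → ℤ) (n : ℤ) (x : UnitAddCircle) :
    ∏ i ∈ F, (fourier n (a i • x) : ℂ) = fourier n ((∑ i ∈ F, a i) • x) := by
  classical
  induction F using Finset.induction_on with
  | empty => simp
  | insert i s hi ih =>
    rw [Finset.prod_insert hi, ih, Finset.sum_insert hi, add_smul]
    rw [fourier_apply, fourier_apply, fourier_apply, ← Circle.coe_mul, ← AddCircle.toCircle_add,
      smul_add]

lemma fourier_mul_conj (n a b : ℤ) (x : UnitAddCircle) :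
    (fourier n (a • x) : ℂ) * (starRingEnd ℂ) (fourier n (b • x) : ℂ) =
      fourier n ((a - b) • x) := by
  rw [← fourier_neg, sub_smul]
  rw [fourier_apply, fourier_apply, fourier_apply, ← Circle.coe_mul, ← AddCircle.toCircle_add,
    smul_sub, neg_smul, sub_eq_add_neg]

lemma cont_f (k a : ℤ) : Continuous fun x : UnitAddCircle => (fourier k (a • x) : ℂ) :=
  (fourier k).continuous.comp (continuous_zsmul _)

section main

variable {ι : Type} [Fintype ι] (m : ι → ℤ) (w : ι → ℝ) (k : ℤ)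

/-- the weighted mean of the characters `k (s m i)` -/
noncomputable def A (s : ℤ) (x : UnitAddCircle) : ℂ :=
  ∑ i, (w i : ℂ) * fourier k ((s * m i) • x)

lemma A_cont (s : ℤ) : Continuous (A m w k s) := by
  unfold A
  exact continuous_finsetSum _ fun i _ => continuous_const.mul (cont_f k _)

lemma A_neg (x : UnitAddCircle) : A m w k (-1) x = (starRingEnd ℂ) (A m w k 1 x) := by
  unfold A
  rw [map_sum]
  refine Finset.sum_congr rfl fun i _ => ?_
  rw [map_mul, Complex.conj_ofReal, ← fourier_neg, one_mul]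
  congr 1
  rw [fourier_apply, fourier_apply]
  congr 2
  rw [neg_mul, one_mul, neg_smul, smul_neg, neg_smul]

lemma A_norm (s : ℤ) (hs : s = 1 ∨ s = -1) (x : UnitAddCircle) :
    ‖A m w k s x‖ = ‖A m w k 1 x‖ := by
  rcases hs with h | h
  · rw [h]
  · rw [h, A_neg, RCLike.norm_conj]

variable {m w k}

lemma A_le (hw : ∀ i, 0 ≤ w i) (hw1 : ∑ i, w i = 1) (s : ℤ) (x : UnitAddCircle) :
    ‖A m w k s x‖ ≤ 1 := by
  unfold A
  refine (norm_sum_le _ _).trans (le_trans (Finset.sum_le_sum fun i _ => ?_) hw1.le)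
  rw [norm_mul, norm_fourier, mul_one, Complex.norm_real, Real.norm_of_nonneg (hw i)]

lemma prod_A {t : ℕ} (σ : Fin t → ℤ) (x : UnitAddCircle) :
    ∏ i, A m w k (σ i) x =
      ∑ f : Fin t → ι, ((∏ i, w (f i) : ℝ) : ℂ) * fourier k ((∑ i, σ i * m (f i)) • x) := by
  unfold A
  rw [Finset.prod_univ_sum, Fintype.piFinset_univ]
  refine Finset.sum_congr rfl fun f _ => ?_
  rw [Finset.prod_mul_distrib, prod_fourier, Complex.ofReal_prod]

lemma sum_prod (hw1 : ∑ i, w i = 1) (t : ℕ) : ∑ f : Fin t → ι, ∏ i, w (f i) = 1 := by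
  have h := Finset.prod_univ_sum (fun _ : Fin t => (Finset.univ : Finset ι)) (fun _ j => w j)
  rw [Fintype.piFinset_univ] at h
  rw [← h, hw1]
  simp

lemma norm_coeff_le (μ : Measure UnitAddCircle) [IsProbabilityMeasure μ] (k a : ℤ) :
    ‖∫ x, (fourier k (a • x) : ℂ) ∂μ‖ ≤ 1 := by
  have := norm_integral_le_of_norm_le_const (μ := μ) (f := fun x => (fourier k (a • x) : ℂ))
    (C := 1) (Eventually.of_forall fun x => (norm_fourier k _).le)
  rwa [probReal_univ, mul_one] at this

lemma norm_coeff_le' (μ : Measure UnitAddCircle) [IsProbabilityMeasure μ] (k : ℤ) :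
    ‖∫ x, (fourier k x : ℂ) ∂μ‖ ≤ 1 := by
  have := norm_coeff_le μ k 1
  simpa using this

lemma integrable_f (μ : Measure UnitAddCircle) [IsProbabilityMeasure μ] (k a : ℤ) :
    Integrable (fun x => (fourier k (a • x) : ℂ)) μ := by
  refine Integrable.of_bound (C := 1) (cont_f k a).aestronglyMeasurable
    (Eventually.of_forall fun x => (norm_fourier k _).le)

/-- the integral of the product of the means is close to the Fourier coefficient of `ν` -/
lemma int_prod (μ ν : Measure UnitAddCircle) [IsProbabilityMeasure μ] [IsProbabilityMeasure ν]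
    (hw : ∀ i, 0 ≤ w i) (hw1 : ∑ i, w i = 1) {t : ℕ} (σ : Fin t → ℤ) :
    ‖(∫ x, ∏ i, A m w k (σ i) x ∂μ) - ∫ x, (fourier k x : ℂ) ∂ν‖ ≤
      2 * badTuples σ μ ν m w := by
  classical
  set c : ℂ := ∫ x, (fourier k x : ℂ) ∂ν with hc
  have hc1 : ‖c‖ ≤ 1 := norm_coeff_le' ν k
  simp_rw [prod_A]
  rw [integral_finsetSum _ fun f _ => (integrable_f μ k _).const_mul _]
  simp_rw [integral_const_mul]
  have e1 : c = ∑ f : Fin t → ι, ((∏ i, w (f i) : ℝ) : ℂ) * c := by
    rw [← Finset.sum_mul, ← Complex.ofReal_sum, sum_prod hw1]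
    simp
  rw [e1, ← Finset.sum_sub_distrib]
  refine (norm_sum_le _ _).trans ?_
  unfold badTuples
  rw [Finset.mul_sum]
  refine Finset.sum_le_sum fun f _ => ?_
  rw [← mul_sub, norm_mul, Complex.norm_real,
    Real.norm_of_nonneg (Finset.prod_nonneg fun i _ => hw _)]
  split_ifs with h
  · rw [int_map _ h (fun x => (fourier k x : ℂ)) (fourier k).continuous, ← hc]
    simp
  · have h2 : ‖(∫ x, (fourier k ((∑ i, σ i * m (f i)) • x) : ℂ) ∂μ) - c‖ ≤ 2 := by
      refine (norm_sub_le _ _).trans ?_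
      have := norm_coeff_le μ k (∑ i, σ i * m (f i))
      linarith
    have h3 : 0 ≤ ∏ i, w (f i) := Finset.prod_nonneg fun i _ => hw _
    nlinarith

lemma normSq_A (x : UnitAddCircle) :
    ((‖A m w k 1 x‖ ^ 2 : ℝ) : ℂ) =
      ∑ q : ι × ι, ((w q.1 * w q.2 : ℝ) : ℂ) * fourier k ((m q.1 - m q.2) • x) := by
  have h : ((‖A m w k 1 x‖ ^ 2 : ℝ) : ℂ) = A m w k 1 x * (starRingEnd ℂ) (A m w k 1 x) := by
    rw [Complex.mul_conj, Complex.normSq_eq_norm_sq]
  rw [h]
  unfold A
  rw [map_sum, Finset.sum_mul_sum, ← Finset.univ_product_univ, Finset.sum_product]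
  refine Finset.sum_congr rfl fun i _ => Finset.sum_congr rfl fun j _ => ?_
  rw [map_mul, Complex.conj_ofReal, one_mul, one_mul, ← fourier_mul_conj]
  push_cast
  ring

lemma sum_pairs (hw1 : ∑ i, w i = 1) : ∑ q : ι × ι, w q.1 * w q.2 = 1 := by
  rw [← Finset.univ_product_univ, Finset.sum_product, ← Finset.sum_mul_sum, hw1, mul_one]

/-- the integral of the square of the modulus of the mean -/
lemma int_sq (μ ν : Measure UnitAddCircle) [IsProbabilityMeasure μ] [IsProbabilityMeasure ν]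
    (hw : ∀ i, 0 ≤ w i) (hw1 : ∑ i, w i = 1) :
    ‖((∫ x, ‖A m w k 1 x‖ ^ 2 ∂μ : ℝ) : ℂ) - ∫ x, (fourier k x : ℂ) ∂ν‖ ≤
      2 * badPairs μ ν m w := by
  classical
  set c : ℂ := ∫ x, (fourier k x : ℂ) ∂ν with hc
  have hc1 : ‖c‖ ≤ 1 := norm_coeff_le' ν k
  rw [← integral_complex_ofReal]
  simp_rw [normSq_A]
  rw [integral_finsetSum _ fun f _ => (integrable_f μ k _).const_mul _]
  simp_rw [integral_const_mul]
  have e1 : c = ∑ q : ι × ι, ((w q.1 * w q.2 : ℝ) : ℂ) * c := by
    rw [← Finset.sum_mul, ← Complex.ofReal_sum, sum_pairs hw1]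
    simp
  rw [e1, ← Finset.sum_sub_distrib]
  refine (norm_sum_le _ _).trans ?_
  unfold badPairs
  rw [Finset.mul_sum]
  refine Finset.sum_le_sum fun q _ => ?_
  have h3 : 0 ≤ w q.1 * w q.2 := mul_nonneg (hw _) (hw _)
  rw [← mul_sub, norm_mul, Complex.norm_real, Real.norm_of_nonneg h3]
  split_ifs with h
  · rw [int_map _ h (fun x => (fourier k x : ℂ)) (fourier k).continuous, ← hc]
    simp
  · have h2 : ‖(∫ x, (fourier k ((m q.1 - m q.2) • x) : ℂ) ∂μ) - c‖ ≤ 2 := by
      refine (norm_sub_le _ _).trans ?_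
      have := norm_coeff_le μ k (m q.1 - m q.2)
      linarith
    nlinarith

/-- the pointwise inequality -/
lemma pointwise (hw : ∀ i, 0 ≤ w i) (hw1 : ∑ i, w i = 1) {η θ : ℝ} (hη : 0 < η) (hθ : 0 < θ)
    (x : UnitAddCircle) :
    ‖A m w k 1 x‖ ^ 2 ≤ (‖A m w k 1 x‖ ^ 2 - ‖A m w k 1 x‖ ^ 3) / θ +
      ∑ q : ι × ι, w q.1 * w q.2 *
        ({x : UnitAddCircle | 1 - (fourier k ((m q.1 - m q.2) • x) : ℂ).re ≤ η}.indicator
          (fun _ => (1 : ℝ)) x) + 2 * θ / η := by
  set a := ‖A m w k 1 x‖ with ha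
  have ha0 : 0 ≤ a := norm_nonneg _
  have ha1 : a ≤ 1 := A_le hw hw1 1 x
  have hS0 : 0 ≤ ∑ q : ι × ι, w q.1 * w q.2 *
      ({x : UnitAddCircle | 1 - (fourier k ((m q.1 - m q.2) • x) : ℂ).re ≤ η}.indicator
          (fun _ => (1 : ℝ)) x) := by
    refine Finset.sum_nonneg fun q _ => mul_nonneg (mul_nonneg (hw _) (hw _)) ?_
    exact Set.indicator_nonneg (fun _ _ => zero_le_one) _
  have hsum : ∑ q : ι × ι, w q.1 * w q.2 * (1 - (fourier k ((m q.1 - m q.2) • x) : ℂ).re) =
      1 - a ^ 2 := by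
    have h1 := congrArg Complex.re (normSq_A (m := m) (w := w) (k := k) x)
    rw [Complex.ofReal_re, Complex.re_sum] at h1
    have h2 : ∀ q : ι × ι, w q.1 * w q.2 * (1 - (fourier k ((m q.1 - m q.2) • x) : ℂ).re) =
        w q.1 * w q.2 - (((w q.1 * w q.2 : ℝ) : ℂ) * fourier k ((m q.1 - m q.2) • x)).re := by
      intro q
      rw [Complex.re_ofReal_mul]
      ring
    rw [Finset.sum_congr rfl fun q _ => h2 q, Finset.sum_sub_distrib, sum_pairs hw1, ← h1]
  have hkey : 1 ≤ ∑ q : ι × ι, w q.1 * w q.2 *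
      ({x : UnitAddCircle | 1 - (fourier k ((m q.1 - m q.2) • x) : ℂ).re ≤ η}.indicator
          (fun _ => (1 : ℝ)) x) + (1 - a ^ 2) / η := by
    rw [← hsum, Finset.sum_div, ← Finset.sum_add_distrib]
    calc (1 : ℝ) = ∑ q : ι × ι, w q.1 * w q.2 := (sum_pairs hw1).symm
      _ ≤ _ := by
        refine Finset.sum_le_sum fun q _ => ?_
        have h3 : 0 ≤ w q.1 * w q.2 := mul_nonneg (hw _) (hw _)
        set u : ℝ := 1 - (fourier k ((m q.1 - m q.2) • x) : ℂ).re with hu
        have hu0 : 0 ≤ u := by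
          have := Complex.re_le_norm (fourier k ((m q.1 - m q.2) • x) : ℂ)
          rw [norm_fourier] at this
          linarith
        by_cases hx : x ∈ {x : UnitAddCircle | 1 - (fourier k ((m q.1 - m q.2) • x) : ℂ).re ≤ η}
        · rw [Set.indicator_of_mem hx]
          have : 0 ≤ w q.1 * w q.2 * u / η := by positivity
          linarith
        · rw [Set.indicator_of_notMem hx]
          have h4 : η < u := not_le.1 hx
          have h5 : 1 ≤ u / η := by
            rw [one_le_div hη]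
            exact h4.le
          calc w q.1 * w q.2 = w q.1 * w q.2 * 1 := (mul_one _).symm
            _ ≤ w q.1 * w q.2 * (u / η) := mul_le_mul_of_nonneg_left h5 h3
            _ = _ := by ring
  set S := ∑ q : ι × ι, w q.1 * w q.2 *
      ({x : UnitAddCircle | 1 - (fourier k ((m q.1 - m q.2) • x) : ℂ).re ≤ η}.indicator
          (fun _ => (1 : ℝ)) x)
  have h6 : 0 ≤ 2 * θ / η := by positivity
  have h7 : 0 ≤ a ^ 2 - a ^ 3 := by
    have : a ^ 3 = a ^ 2 * a := by ring
    rw [this]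
    nlinarith [sq_nonneg a]
  have h8 : 0 ≤ (a ^ 2 - a ^ 3) / θ := by positivity
  by_cases hcase : a ≤ 1 - θ
  · have h9 : a ^ 2 ≤ (a ^ 2 - a ^ 3) / θ := by
      rw [le_div_iff₀ hθ]
      nlinarith [sq_nonneg a]
    linarith
  · push Not at hcase
    have h10 : 1 - a ^ 2 ≤ 2 * θ := by nlinarith
    have h11 : (1 - a ^ 2) / η ≤ 2 * θ / η := div_le_div_of_nonneg_right h10 hη.le
    have h12 : a ^ 2 ≤ 1 := pow_le_one₀ ha0 ha1
    linarith

lemma set_measurable (k a : ℤ) (η : ℝ) :
    MeasurableSet {x : UnitAddCircle | 1 - (fourier k (a • x) : ℂ).re ≤ η} := by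
  refine measurableSet_le ?_ measurable_const
  exact (continuous_const.sub (Complex.continuous_re.comp (cont_f k a))).measurable

lemma set_measurable' (k : ℤ) (η : ℝ) :
    MeasurableSet {x : UnitAddCircle | 1 - (fourier k x : ℂ).re ≤ η} := by
  refine measurableSet_le ?_ measurable_const
  exact (continuous_const.sub (Complex.continuous_re.comp (fourier k).continuous)).measurable

/-- **The finite inequality.** -/
theorem ineq (μ ν : Measure UnitAddCircle) [IsProbabilityMeasure μ] [IsProbabilityMeasure ν]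
    (hw : ∀ i, 0 ≤ w i) (hw1 : ∑ i, w i = 1) {t : ℕ} (ht : 3 ≤ t) (σ : Fin t → ℤ)
    (hσ : ∀ i, σ i = 1 ∨ σ i = -1) {ε : ℝ} (h1 : badPairs μ ν m w ≤ ε)
    (h2 : badTuples σ μ ν m w ≤ ε) {η : ℝ} (hη : 0 < η) (hη1 : η ≤ 1) :
    ‖∫ x, (fourier k x : ℂ) ∂ν‖ ≤
      ν.real {x : UnitAddCircle | 1 - (fourier k x : ℂ).re ≤ η} + 2 * η + 7 * ε / η ^ 2 := by
  classical
  set c : ℂ := ∫ x, (fourier k x : ℂ) ∂ν with hc
  have hε : 0 ≤ ε := by
    refine le_trans ?_ h1
    unfold badPairs
    refine Finset.sum_nonneg fun q _ => ?_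
    split_ifs
    · exact le_rfl
    · exact mul_nonneg (hw _) (hw _)
  have hsq := int_sq (m := m) (w := w) (k := k) μ ν hw hw1
  have hpr := int_prod (m := m) (w := w) (k := k) μ ν hw hw1 σ
  rw [← hc] at hsq hpr
  have hAc : Continuous fun x => ‖A m w k 1 x‖ := (A_cont m w k 1).norm
  have hbd : ∀ n : ℕ, Integrable (fun x => ‖A m w k 1 x‖ ^ n) μ := by
    intro n
    refine Integrable.of_bound (C := 1) (hAc.pow n).aestronglyMeasurable
      (Eventually.of_forall fun x => ?_)
    rw [Real.norm_of_nonneg (pow_nonneg (norm_nonneg _) _)]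
    exact pow_le_one₀ (norm_nonneg _) (A_le hw hw1 1 x)
  -- the cube
  have hcube : ‖c‖ - 2 * ε ≤ ∫ x, ‖A m w k 1 x‖ ^ 3 ∂μ := by
    have e1 : ‖∫ x, ∏ i, A m w k (σ i) x ∂μ‖ ≤ ∫ x, ‖A m w k 1 x‖ ^ 3 ∂μ := by
      refine (norm_integral_le_integral_norm _).trans ?_
      refine integral_mono_of_nonneg (Eventually.of_forall fun x => norm_nonneg _) (hbd 3)
        (Eventually.of_forall fun x => ?_)
      show ‖∏ i, A m w k (σ i) x‖ ≤ ‖A m w k 1 x‖ ^ 3
      rw [norm_prod, Finset.prod_congr rfl fun i _ => A_norm m w k (σ i) (hσ i) x,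
        Finset.prod_const, Finset.card_univ, Fintype.card_fin]
      exact pow_le_pow_of_le_one (norm_nonneg _) (A_le hw hw1 1 x) ht
    have e2 : ‖c‖ ≤ ‖∫ x, ∏ i, A m w k (σ i) x ∂μ‖ + 2 * badTuples σ μ ν m w := by
      calc ‖c‖ = ‖(∫ x, ∏ i, A m w k (σ i) x ∂μ) - ((∫ x, ∏ i, A m w k (σ i) x ∂μ) - c)‖ := by
            congr 1; ring
        _ ≤ _ := norm_sub_le _ _
        _ ≤ _ := by linarith
    linarith
  have hI0 : 0 ≤ ∫ x, ‖A m w k 1 x‖ ^ 2 ∂μ := integral_nonneg fun x => by positivity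
  have hup : (∫ x, ‖A m w k 1 x‖ ^ 2 ∂μ) ≤ ‖c‖ + 2 * ε := by
    have e1 : ‖((∫ x, ‖A m w k 1 x‖ ^ 2 ∂μ : ℝ) : ℂ)‖ ≤ ‖c‖ + 2 * badPairs μ ν m w := by
      calc ‖((∫ x, ‖A m w k 1 x‖ ^ 2 ∂μ : ℝ) : ℂ)‖
          = ‖c + (((∫ x, ‖A m w k 1 x‖ ^ 2 ∂μ : ℝ) : ℂ) - c)‖ := by congr 1; ring
        _ ≤ _ := norm_add_le _ _
        _ ≤ _ := by linarith
    rw [Complex.norm_real, Real.norm_of_nonneg hI0] at e1
    linarith
  have hlow : ‖c‖ ≤ (∫ x, ‖A m w k 1 x‖ ^ 2 ∂μ) + 2 * ε := by
    have e1 : ‖c‖ ≤ ‖((∫ x, ‖A m w k 1 x‖ ^ 2 ∂μ : ℝ) : ℂ)‖ + 2 * badPairs μ ν m w := by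
      calc ‖c‖ = ‖((∫ x, ‖A m w k 1 x‖ ^ 2 ∂μ : ℝ) : ℂ) -
            (((∫ x, ‖A m w k 1 x‖ ^ 2 ∂μ : ℝ) : ℂ) - c)‖ := by congr 1; ring
        _ ≤ _ := norm_sub_le _ _
        _ ≤ _ := by linarith
    rw [Complex.norm_real, Real.norm_of_nonneg hI0] at e1
    linarith
  -- integrate the pointwise inequality
  have hθ : 0 < η ^ 2 := by positivity
  have hint : ∀ q : ι × ι, Integrable (fun x => w q.1 * w q.2 *
        ({x : UnitAddCircle | 1 - (fourier k ((m q.1 - m q.2) • x) : ℂ).re ≤ η}.indicator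
          (fun _ => (1 : ℝ)) x)) μ := by
    intro q
    exact ((integrable_const (1 : ℝ)).indicator (set_measurable k _ η)).const_mul _
  have hmain : (∫ x, ‖A m w k 1 x‖ ^ 2 ∂μ) ≤
      ((∫ x, ‖A m w k 1 x‖ ^ 2 ∂μ) - ∫ x, ‖A m w k 1 x‖ ^ 3 ∂μ) / η ^ 2 +
      (∑ q : ι × ι, w q.1 * w q.2 *
        μ.real {x : UnitAddCircle | 1 - (fourier k ((m q.1 - m q.2) • x) : ℂ).re ≤ η}) +
        2 * η ^ 2 / η := by
    have i1 : Integrable (fun x => (‖A m w k 1 x‖ ^ 2 - ‖A m w k 1 x‖ ^ 3) / η ^ 2) μ :=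
      ((hbd 2).sub (hbd 3)).div_const (η ^ 2)
    have i2 : Integrable (fun x => ∑ q : ι × ι, w q.1 * w q.2 *
        ({x : UnitAddCircle | 1 - (fourier k ((m q.1 - m q.2) • x) : ℂ).re ≤ η}.indicator
          (fun _ => (1 : ℝ)) x)) μ := integrable_finsetSum Finset.univ fun q _ => hint q
    have i3 : Integrable (fun x => (‖A m w k 1 x‖ ^ 2 - ‖A m w k 1 x‖ ^ 3) / η ^ 2 +
        ∑ q : ι × ι, w q.1 * w q.2 *
        ({x : UnitAddCircle | 1 - (fourier k ((m q.1 - m q.2) • x) : ℂ).re ≤ η}.indicator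
          (fun _ => (1 : ℝ)) x)) μ := i1.add i2
    have i4 : Integrable (fun _ : UnitAddCircle => 2 * η ^ 2 / η) μ := integrable_const _
    have e : (∫ x, ‖A m w k 1 x‖ ^ 2 ∂μ) ≤ ∫ x, ((‖A m w k 1 x‖ ^ 2 - ‖A m w k 1 x‖ ^ 3) / η ^ 2 +
        ∑ q : ι × ι, w q.1 * w q.2 *
        ({x : UnitAddCircle | 1 - (fourier k ((m q.1 - m q.2) • x) : ℂ).re ≤ η}.indicator
          (fun _ => (1 : ℝ)) x) + 2 * η ^ 2 / η) ∂μ :=
      integral_mono (hbd 2) (i3.add i4)
        (fun x => pointwise (m := m) (w := w) (k := k) hw hw1 hη hθ x)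
    refine e.trans (le_of_eq ?_)
    rw [integral_add i3 i4, integral_add i1 i2, integral_div, integral_sub (hbd 2) (hbd 3),
      integral_const, probReal_univ, one_smul, integral_finsetSum _ fun q _ => hint q]
    congr 2
    refine Finset.sum_congr rfl fun q _ => ?_
    rw [integral_const_mul, integral_indicator_const (1 : ℝ) (set_measurable k _ η)]
    simp
  have hS : (∑ q : ι × ι, w q.1 * w q.2 *
        μ.real {x : UnitAddCircle | 1 - (fourier k ((m q.1 - m q.2) • x) : ℂ).re ≤ η}) ≤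
      ν.real {x : UnitAddCircle | 1 - (fourier k x : ℂ).re ≤ η} + ε := by
    set R := ν.real {x : UnitAddCircle | 1 - (fourier k x : ℂ).re ≤ η} with hR
    calc (∑ q : ι × ι, w q.1 * w q.2 *
        μ.real {x : UnitAddCircle | 1 - (fourier k ((m q.1 - m q.2) • x) : ℂ).re ≤ η})
        ≤ ∑ q : ι × ι, (w q.1 * w q.2 * R +
          if μ.map (fun x : UnitAddCircle => (m q.1 - m q.2) • x) = ν then 0
            else w q.1 * w q.2) := by
          refine Finset.sum_le_sum fun q _ => ?_
          have h3 : 0 ≤ w q.1 * w q.2 := mul_nonneg (hw _) (hw _)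
          split_ifs with h
          · rw [hR, ← h, map_measureReal_apply (measurable_smul_int _) (set_measurable' k η)]
            rw [add_zero]
            exact le_rfl
          · have h4 : μ.real {x : UnitAddCircle |
                1 - (fourier k ((m q.1 - m q.2) • x) : ℂ).re ≤ η} ≤ 1 := measureReal_le_one
            have h5 : 0 ≤ R := measureReal_nonneg
            nlinarith
      _ = R + badPairs μ ν m w := by
          rw [Finset.sum_add_distrib, ← Finset.sum_mul, sum_pairs hw1, one_mul]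
          rfl
      _ ≤ _ := by linarith
  have h13 : 2 * η ^ 2 / η = 2 * η := by field_simp
  have h14 : ((∫ x, ‖A m w k 1 x‖ ^ 2 ∂μ) - ∫ x, ‖A m w k 1 x‖ ^ 3 ∂μ) / η ^ 2 ≤
      4 * ε / η ^ 2 := by
    refine div_le_div_of_nonneg_right ?_ hθ.le
    linarith
  have h15 : 3 * ε ≤ 3 * ε / η ^ 2 := by
    rw [le_div_iff₀ hθ]
    have : η ^ 2 ≤ 1 := pow_le_one₀ hη.le hη1
    nlinarith
  have h16 : 4 * ε / η ^ 2 + 3 * ε / η ^ 2 = 7 * ε / η ^ 2 := by ring
  rw [h13] at hmain
  linarith

end main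

lemma fourier_eq_one {k : ℤ} {x : UnitAddCircle} (h : (1 : ℝ) ≤ (fourier k x : ℂ).re) :
    k • x = 0 := by
  set z : ℂ := fourier k x with hz
  have h1 : ‖z‖ = 1 := norm_fourier k x
  have h3 : ‖z‖ ^ 2 = 1 := by rw [h1]; norm_num
  rw [← Complex.normSq_eq_norm_sq, Complex.normSq_apply] at h3
  have h5 : z.im = 0 := by nlinarith [mul_self_nonneg z.im]
  have h6 : z.re = 1 := by
    rw [h5] at h3
    nlinarith
  have h7 : z = 1 := Complex.ext h6 h5
  rw [hz, fourier_apply] at h7
  have h2 : AddCircle.toCircle (k • x) = 1 := by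
    apply Subtype.ext
    rw [h7]
    rfl
  have h8 : AddCircle.toCircle (k • x) = AddCircle.toCircle (0 : UnitAddCircle) := by
    rw [h2, AddCircle.toCircle_zero]
  exact AddCircle.injective_toCircle one_ne_zero h8

/-- the mass of the neighbourhoods `{1 - Re e(k x) ≤ 1 / (n + 1)}` tends to the mass of the
`k`-torsion -/
lemma tendsto_small (ν : Measure UnitAddCircle) [IsProbabilityMeasure ν] (k : ℤ) :
    Tendsto (fun n : ℕ => ν.real {x : UnitAddCircle | 1 - (fourier k x : ℂ).re ≤ 1 / (n + 1 : ℝ)})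
      atTop (𝓝 (ν.real {x : UnitAddCircle | k • x = 0})) := by
  have hset : {x : UnitAddCircle | k • x = 0} =
      ⋂ n : ℕ, {x : UnitAddCircle | 1 - (fourier k x : ℂ).re ≤ 1 / (n + 1 : ℝ)} := by
    ext x
    simp only [mem_ofPred_eq, mem_iInter]
    constructor
    · intro hx n
      have : (fourier k x : ℂ) = 1 := by
        rw [fourier_apply, hx, AddCircle.toCircle_zero]
        rfl
      rw [this, Complex.one_re, sub_self]
      positivity
    · intro hx
      apply fourier_eq_one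
      have h0 : Tendsto (fun n : ℕ => 1 / (n + 1 : ℝ)) atTop (𝓝 0) :=
        tendsto_one_div_add_atTop_nhds_zero_nat
      have := ge_of_tendsto' h0 hx
      linarith
  rw [hset]
  have hanti : Antitone fun n : ℕ =>
      {x : UnitAddCircle | 1 - (fourier k x : ℂ).re ≤ 1 / (n + 1 : ℝ)} := by
    intro a b hab x hx
    simp only [mem_ofPred_eq] at hx ⊢
    refine hx.trans ?_
    apply one_div_le_one_div_of_le (by positivity)
    have : (a : ℝ) ≤ b := by exact_mod_cast hab
    linarith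
  have := tendsto_measure_iInter_atTop (μ := ν)
    (fun n : ℕ => (set_measurable' k (1 / (n + 1 : ℝ))).nullMeasurableSet) hanti
    ⟨0, measure_ne_top _ _⟩
  exact (ENNReal.tendsto_toReal (measure_ne_top _ _)).comp this

lemma vol_fourier {n : ℤ} (hn : n ≠ 0) :
    ∫ x, (fourier n x : ℂ) ∂(volume : Measure UnitAddCircle) = 0 := by
  refine Pool.Agent.R202.coeff_zero (θ := Real.sqrt 2) irrational_sqrt_two ?_ hn
  exact (measurePreserving_add_right volume _).map_eq

lemma torsion_null (ν : Measure UnitAddCircle) (hna : ∀ x, ν {x} = 0) {n : ℤ} (hn : n ≠ 0) :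
    ν {x | n • x = 0} = 0 := by
  have hfin : {x : UnitAddCircle | n • x = 0}.Finite := by
    refine (AddCircle.finite_torsion (1 : ℝ) (Int.natAbs_pos.2 hn)).subset fun x hx => ?_
    have h1 : n • x = 0 := hx
    show n.natAbs • x = 0
    rcases Int.natAbs_eq n with h | h
    · rw [h, natCast_zsmul] at h1
      exact h1
    · rw [h, neg_smul, natCast_zsmul, neg_eq_zero] at h1
      exact h1
  have : NullSingletonClass ν := ⟨hna⟩
  exact hfin.measure_zero ν

/-- no atomless measure other than Lebesgue measure is hit too often -/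
theorem rigid (ν : Measure UnitAddCircle) [IsProbabilityMeasure ν] (hna : ∀ x, ν {x} = 0)
    (hne : ν ≠ volume) :
    ∃ ε : ℝ, 0 < ε ∧ ∀ (ι : Type) [Fintype ι] (m : ι → ℤ) (w : ι → ℝ), (∀ i, 0 ≤ w i) →
      ∑ i, w i = 1 → ∀ μ : Measure UnitAddCircle, IsProbabilityMeasure μ →
      ∀ (t : ℕ) (σ : Fin t → ℤ), 3 ≤ t → (∀ i, σ i = 1 ∨ σ i = -1) →
      ε < badPairs μ ν m w ∨ ε < badTuples σ μ ν m w := by
  obtain ⟨k, hk0, hk⟩ : ∃ k : ℤ, k ≠ 0 ∧ ∫ x, (fourier k x : ℂ) ∂ν ≠ 0 := by
    by_contra hcon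
    push Not at hcon
    refine hne (Pool.Agent.R202.ext_fourier fun n => ?_)
    by_cases hn : n = 0
    · subst hn
      have h0 : (volume : Measure UnitAddCircle) univ = 1 := UnitAddCircle.measure_univ
      simp [measureReal_def, h0]
    · rw [vol_fourier hn, hcon n hn]
  set c : ℂ := ∫ x, (fourier k x : ℂ) ∂ν with hc
  have hcpos : 0 < ‖c‖ := norm_pos_iff.2 hk
  have h1 := tendsto_small ν k
  have h2 : ν.real {x : UnitAddCircle | k • x = 0} = 0 := by
    rw [measureReal_def, torsion_null ν hna hk0]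
    rfl
  rw [h2] at h1
  have h3 : Tendsto (fun n : ℕ => 2 * (1 / (n + 1 : ℝ))) atTop (𝓝 0) := by
    simpa using (tendsto_one_div_add_atTop_nhds_zero_nat (𝕜 := ℝ)).const_mul 2
  have h4 := h1.add h3
  rw [add_zero] at h4
  have h5 : ∀ᶠ n : ℕ in atTop, ν.real {x : UnitAddCircle | 1 - (fourier k x : ℂ).re ≤
      1 / (n + 1 : ℝ)} + 2 * (1 / (n + 1 : ℝ)) < ‖c‖ / 2 :=
    h4.eventually_lt_const (by positivity)
  obtain ⟨n, hn⟩ := h5.exists
  set η : ℝ := 1 / (n + 1 : ℝ) with hη
  have hη0 : 0 < η := by positivity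
  have hη1 : η ≤ 1 := by
    rw [hη, div_le_one (by positivity)]
    have : (0 : ℝ) ≤ n := by positivity
    linarith
  refine ⟨‖c‖ * η ^ 2 / 28, by positivity, ?_⟩
  intro ι _ m w hw hw1 μ hμ t σ ht hσ
  by_contra hcon
  push Not at hcon
  have h6 := ineq (m := m) (w := w) (k := k) μ ν hw hw1 ht σ hσ hcon.1 hcon.2 hη0 hη1
  have h7 : 7 * (‖c‖ * η ^ 2 / 28) / η ^ 2 = ‖c‖ / 4 := by
    field_simp
    norm_num
  rw [h7, ← hc] at h6
  linarith

/-! ### Infinite sequences -/

lemma badPairs_le (μ ν : Measure UnitAddCircle) (m : ℕ → ℤ)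
    (h : ∀ a b, a ≠ b → μ.map (fun x : UnitAddCircle => (m a - m b) • x) = ν) {N : ℕ}
    (hN : 0 < N) :
    badPairs μ ν (fun i : Fin N => m i) (fun _ => (1 / N : ℝ)) ≤ 1 / N := by
  classical
  have hN' : (0 : ℝ) < N := by exact_mod_cast hN
  unfold badPairs
  calc (∑ q : Fin N × Fin N, if μ.map (fun x : UnitAddCircle => (m q.1 - m q.2) • x) = ν then 0
        else (1 / N : ℝ) * (1 / N))
      ≤ ∑ q : Fin N × Fin N, if q.1 = q.2 then (1 / N : ℝ) * (1 / N) else 0 := by
        refine Finset.sum_le_sum fun q _ => ?_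
        by_cases hq : q.1 = q.2
        · rw [if_pos hq]
          split_ifs
          · positivity
          · exact le_rfl
        · rw [if_neg hq, if_pos (h _ _ fun h' => hq (Fin.ext h'))]
    _ = 1 / N := by
        rw [← Finset.univ_product_univ, Finset.sum_product]
        simp only [Finset.sum_ite_eq, Finset.mem_univ, if_true, Finset.sum_const, Finset.card_univ,
          Fintype.card_fin, nsmul_eq_mul]
        field_simp

lemma card_inj (t N : ℕ) :
    ((Finset.univ : Finset (Fin t → Fin N)).filter fun f => Function.Injective f).card =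
      N.descFactorial t := by
  classical
  rw [← Fintype.card_subtype,
    Fintype.card_congr (Equiv.subtypeInjectiveEquivEmbedding (Fin t) (Fin N)),
    Fintype.card_embedding_eq, Fintype.card_fin, Fintype.card_fin]

lemma desc_lower {t N : ℕ} (hN : 0 < N) (ht : t ≤ N) :
    1 - (t : ℝ) ^ 2 / N ≤ (N.descFactorial t : ℝ) * (1 / N) ^ t := by
  have hN' : (0 : ℝ) < N := by exact_mod_cast hN
  have h1 : ((N + 1 - t : ℕ) : ℝ) ^ t ≤ (N.descFactorial t : ℝ) := by
    exact_mod_cast Nat.pow_sub_le_descFactorial N t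
  have h2 : ((N + 1 - t : ℕ) : ℝ) = N + 1 - t := by
    rw [Nat.cast_sub (by omega)]
    push_cast
    ring
  have h3 : 1 + (t : ℝ) * (-(t / N)) ≤ (1 + -(t / N : ℝ)) ^ t := by
    apply one_add_mul_le_pow
    have : (t : ℝ) / N ≤ 1 := by
      rw [div_le_one hN']
      exact_mod_cast ht
    linarith
  calc 1 - (t : ℝ) ^ 2 / N = 1 + (t : ℝ) * (-(t / N)) := by ring
    _ ≤ (1 + -(t / N : ℝ)) ^ t := h3
    _ ≤ (((N + 1 - t : ℕ) : ℝ) * (1 / N)) ^ t := by
        apply pow_le_pow_left₀
        · have : (t : ℝ) / N ≤ 1 := by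
            rw [div_le_one hN']
            exact_mod_cast ht
          linarith
        · rw [h2, mul_one_div, ← sub_eq_add_neg, sub_le_iff_le_add, ← add_div, le_div_iff₀ hN']
          linarith
    _ = ((N + 1 - t : ℕ) : ℝ) ^ t * (1 / N) ^ t := mul_pow _ _ _
    _ ≤ _ := by
        apply mul_le_mul_of_nonneg_right h1
        positivity

lemma badTuples_le (μ ν : Measure UnitAddCircle) (m : ℕ → ℤ) {t : ℕ} (σ : Fin t → ℤ)
    (h : ∀ f : Fin t → ℕ, Function.Injective f →
      μ.map (fun x : UnitAddCircle => (∑ i, σ i * m (f i)) • x) = ν) {N : ℕ}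
    (hN : 0 < N) (ht : t ≤ N) :
    badTuples σ μ ν (fun i : Fin N => m i) (fun _ => (1 / N : ℝ)) ≤ (t : ℝ) ^ 2 / N := by
  classical
  have hN' : (0 : ℝ) < N := by exact_mod_cast hN
  unfold badTuples
  have h0 : ∀ f : Fin t → Fin N, (if μ.map (fun x : UnitAddCircle =>
        (∑ i, σ i * m (f i)) • x) = ν then 0 else ∏ _i : Fin t, (1 / N : ℝ)) ≤
        (1 / N : ℝ) ^ t - if Function.Injective f then (1 / N : ℝ) ^ t else 0 := by
    intro f
    have hp : ∏ _i : Fin t, (1 / N : ℝ) = (1 / N : ℝ) ^ t := by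
      rw [Finset.prod_const, Finset.card_univ, Fintype.card_fin]
    rw [hp]
    by_cases hf : Function.Injective f
    · rw [if_pos hf, if_pos (h (fun i => (f i : ℕ)) fun a b hab => hf (Fin.ext hab)), sub_self]
    · rw [if_neg hf, sub_zero]
      split_ifs
      · positivity
      · exact le_rfl
  refine (Finset.sum_le_sum fun f _ => h0 f).trans ?_
  rw [Finset.sum_sub_distrib, Finset.sum_const, Finset.card_univ, Fintype.card_fun,
    Fintype.card_fin, Fintype.card_fin, ← Finset.sum_filter, Finset.sum_const, card_inj,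
    nsmul_eq_mul, nsmul_eq_mul]
  have h1 := desc_lower hN ht
  have h2 : ((N ^ t : ℕ) : ℝ) * (1 / N) ^ t = 1 := by
    push_cast
    rw [← mul_pow, mul_one_div, div_self hN'.ne', one_pow]
  rw [h2]
  linarith

section infinite

variable {μ ν : Measure UnitAddCircle} [IsProbabilityMeasure μ] [IsProbabilityMeasure ν]
  {m : ℕ → ℤ} {t : ℕ} {σ : Fin t → ℤ}

/-- upper bound for the Fourier coefficients -/
lemma upper (ht : 3 ≤ t) (hσ : ∀ i, σ i = 1 ∨ σ i = -1)
    (h1 : ∀ a b, a ≠ b → μ.map (fun x : UnitAddCircle => (m a - m b) • x) = ν)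
    (h2 : ∀ f : Fin t → ℕ, Function.Injective f →
      μ.map (fun x : UnitAddCircle => (∑ i, σ i * m (f i)) • x) = ν) (k : ℤ) :
    ‖∫ x, (fourier k x : ℂ) ∂ν‖ ≤ ν.real {x : UnitAddCircle | k • x = 0} := by
  have hstep : ∀ n : ℕ, ‖∫ x, (fourier k x : ℂ) ∂ν‖ ≤
      ν.real {x : UnitAddCircle | 1 - (fourier k x : ℂ).re ≤ 1 / (n + 1 : ℝ)} +
        2 * (1 / (n + 1 : ℝ)) := by
    intro n
    set η : ℝ := 1 / (n + 1 : ℝ) with hη
    have hη0 : 0 < η := by positivity
    have hη1 : η ≤ 1 := by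
      rw [hη, div_le_one (by positivity)]
      have : (0 : ℝ) ≤ n := by positivity
      linarith
    have hlim : Tendsto (fun N : ℕ =>
        ν.real {x : UnitAddCircle | 1 - (fourier k x : ℂ).re ≤ η} + 2 * η +
          7 * ((t : ℝ) ^ 2 / N) / η ^ 2) atTop
        (𝓝 (ν.real {x : UnitAddCircle | 1 - (fourier k x : ℂ).re ≤ η} + 2 * η +
          7 * 0 / η ^ 2)) := by
      refine tendsto_const_nhds.add (Tendsto.div_const (Tendsto.const_mul _ ?_) _)
      exact tendsto_const_div_atTop_nhds_zero_nat _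
    have hge := ge_of_tendsto hlim (b := ‖∫ x, (fourier k x : ℂ) ∂ν‖) ?_
    · simpa using hge
    · filter_upwards [eventually_ge_atTop t, eventually_gt_atTop 0] with N hN hN0
      have hN' : (0 : ℝ) < N := by exact_mod_cast hN0
      refine ineq (m := fun i : Fin N => m i) (w := fun _ => (1 / N : ℝ)) (k := k) μ ν
        (fun _ => by positivity) ?_ ht σ hσ ((badPairs_le μ ν m h1 hN0).trans ?_)
        (badTuples_le μ ν m σ h2 hN0 hN) hη0 hη1
      · rw [Finset.sum_const, Finset.card_univ, Fintype.card_fin, nsmul_eq_mul]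
        field_simp
      · apply div_le_div_of_nonneg_right _ hN'.le
        have : (3 : ℝ) ≤ t := by exact_mod_cast ht
        nlinarith
  have hlim : Tendsto (fun n : ℕ =>
      ν.real {x : UnitAddCircle | 1 - (fourier k x : ℂ).re ≤ 1 / (n + 1 : ℝ)} +
        2 * (1 / (n + 1 : ℝ))) atTop (𝓝 (ν.real {x : UnitAddCircle | k • x = 0} + 2 * 0)) :=
    (tendsto_small ν k).add (tendsto_one_div_add_atTop_nhds_zero_nat.const_mul 2)
  have := ge_of_tendsto' hlim hstep
  simpa using this

lemma tors_eq : {x : UnitAddCircle | IsOfFinAddOrder x} =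
    ⋃ n : ℕ, {x : UnitAddCircle | (n.factorial) • x = 0} := by
  ext x
  simp only [mem_ofPred_eq, mem_iUnion]
  rw [isOfFinAddOrder_iff_nsmul_eq_zero]
  constructor
  · rintro ⟨n, hn, hx⟩
    refine ⟨n, ?_⟩
    obtain ⟨d, hd⟩ := Nat.dvd_factorial hn le_rfl
    rw [hd, mul_comm, mul_smul, hx, smul_zero]
  · rintro ⟨n, hx⟩
    exact ⟨n.factorial, n.factorial_pos, hx⟩

lemma meas_tors (n : ℕ) : MeasurableSet {x : UnitAddCircle | n • x = 0} :=
  (isClosed_singleton (x := (0 : UnitAddCircle))).preimage (continuous_nsmul n) |>.measurableSet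

lemma meas_tors' (n : ℤ) : MeasurableSet {x : UnitAddCircle | n • x = 0} :=
  (isClosed_singleton (x := (0 : UnitAddCircle))).preimage (continuous_zsmul n) |>.measurableSet

lemma meas_torsion : MeasurableSet {x : UnitAddCircle | IsOfFinAddOrder x} := by
  rw [tors_eq]
  exact MeasurableSet.iUnion fun n => meas_tors _

/-- the torsion of `μ` is moved to `0` -/
lemma tors_le (h1 : ∀ a b, a ≠ b → μ.map (fun x : UnitAddCircle => (m a - m b) • x) = ν) :
    μ {x : UnitAddCircle | IsOfFinAddOrder x} ≤ ν {(0 : UnitAddCircle)} := by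
  rw [tors_eq]
  have hmono : Monotone fun n : ℕ => {x : UnitAddCircle | (n.factorial) • x = 0} := by
    intro a b hab x hx
    simp only [mem_ofPred_eq] at hx ⊢
    obtain ⟨d, hd⟩ := Nat.factorial_dvd_factorial hab
    rw [hd, mul_comm, mul_smul, hx, smul_zero]
  rw [hmono.measure_iUnion]
  refine iSup_le fun n => ?_
  -- pigeonhole
  obtain ⟨a, b, hab, hdvd⟩ : ∃ a b : ℕ, a ≠ b ∧ ((n.factorial : ℕ) : ℤ) ∣ m a - m b := by
    haveI : NeZero n.factorial := ⟨n.factorial_pos.ne'⟩
    obtain ⟨a, b, hab, h⟩ := Finite.exists_ne_map_eq_of_infinite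
      (fun i : ℕ => ((m i : ℤ) : ZMod n.factorial))
    refine ⟨a, b, hab, ?_⟩
    have h' : ((m a : ℤ) : ZMod n.factorial) = ((m b : ℤ) : ZMod n.factorial) := h
    rw [eq_comm, ZMod.intCast_eq_intCast_iff_dvd_sub] at h'
    exact h'
  rw [← h1 a b hab, Measure.map_apply (measurable_smul_int _) (measurableSet_singleton _)]
  refine measure_mono fun x hx => ?_
  simp only [mem_ofPred_eq, mem_preimage, mem_singleton_iff] at hx ⊢
  obtain ⟨d, hd⟩ := hdvd
  rw [hd, mul_comm, mul_smul, natCast_zsmul, hx, smul_zero]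

/-- almost every torsion point of `μ` is killed by all the differences -/
lemma tors_diff (h1 : ∀ a b, a ≠ b → μ.map (fun x : UnitAddCircle => (m a - m b) • x) = ν)
    (a b : ℕ) :
    μ ({x : UnitAddCircle | IsOfFinAddOrder x} \ {x : UnitAddCircle | (m a - m b) • x = 0}) = 0 := by
  by_cases hm : m a = m b
  · rw [hm, sub_self]
    simp
  have hab : a ≠ b := fun h => hm (by rw [h])
  have hsub : {x : UnitAddCircle | (m a - m b) • x = 0} ⊆
      {x : UnitAddCircle | IsOfFinAddOrder x} := by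
    intro x hx
    have hx' : (m a - m b) • x = 0 := hx
    show IsOfFinAddOrder x
    rw [isOfFinAddOrder_iff_zsmul_eq_zero]
    exact ⟨m a - m b, sub_ne_zero.2 hm, hx'⟩
  rw [measure_sdiff hsub (meas_tors' _).nullMeasurableSet (measure_ne_top _ _)]
  rw [tsub_eq_zero_iff_le]
  refine (tors_le h1).trans ?_
  rw [← h1 a b hab, Measure.map_apply (measurable_smul_int _) (measurableSet_singleton _)]
  rfl

/-- lower bound for the Fourier coefficients -/
lemma lower (h1 : ∀ a b, a ≠ b → μ.map (fun x : UnitAddCircle => (m a - m b) • x) = ν) (k : ℤ) :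
    μ.real {x : UnitAddCircle | IsOfFinAddOrder x} ≤ (∫ x, (fourier k x : ℂ) ∂ν).re := by
  set c : ℂ := ∫ x, (fourier k x : ℂ) ∂ν with hc
  set G : Set UnitAddCircle := ⋂ a : ℕ, ⋂ b : ℕ, {x : UnitAddCircle | (m a - m b) • x = 0} with hG
  have hGm : MeasurableSet G := MeasurableSet.iInter fun a => MeasurableSet.iInter fun b =>
    meas_tors' _
  have hGle : μ.real {x : UnitAddCircle | IsOfFinAddOrder x} ≤ μ.real G := by
    have h3 : μ ({x : UnitAddCircle | IsOfFinAddOrder x} \ G) = 0 := by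
      have : {x : UnitAddCircle | IsOfFinAddOrder x} \ G ⊆ ⋃ a : ℕ, ⋃ b : ℕ,
          ({x : UnitAddCircle | IsOfFinAddOrder x} \ {x : UnitAddCircle | (m a - m b) • x = 0}) := by
        rintro x ⟨hx1, hx2⟩
        rw [hG] at hx2
        simp only [mem_iInter, not_forall] at hx2
        obtain ⟨a, b, hab⟩ := hx2
        exact mem_iUnion.2 ⟨a, mem_iUnion.2 ⟨b, hx1, hab⟩⟩
      refine measure_mono_null this ?_
      exact measure_iUnion_null fun a => measure_iUnion_null fun b => tors_diff h1 a b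
    have h4 : μ {x : UnitAddCircle | IsOfFinAddOrder x} ≤ μ G := by
      calc μ {x : UnitAddCircle | IsOfFinAddOrder x}
          ≤ μ (({x : UnitAddCircle | IsOfFinAddOrder x} \ G) ∪ G) := measure_mono fun x hx => by
            by_cases hxG : x ∈ G
            · exact Or.inr hxG
            · exact Or.inl ⟨hx, hxG⟩
        _ ≤ μ ({x : UnitAddCircle | IsOfFinAddOrder x} \ G) + μ G := measure_union_le _ _
        _ = μ G := by rw [h3, zero_add]
    exact ENNReal.toReal_mono (measure_ne_top _ _) h4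
  have hstep : ∀ N : ℕ, 0 < N → μ.real G - 2 * (1 / N : ℝ) ≤ c.re := by
    intro N hN
    have hN' : (0 : ℝ) < N := by exact_mod_cast hN
    set w : Fin N → ℝ := fun _ => (1 / N : ℝ) with hwdef
    have hw : ∀ i, 0 ≤ w i := fun _ => by positivity
    have hw1 : ∑ i, w i = 1 := by
      rw [hwdef, Finset.sum_const, Finset.card_univ, Fintype.card_fin, nsmul_eq_mul]
      field_simp
    have hsq := int_sq (m := fun i : Fin N => m i) (w := w) (k := k) μ ν hw hw1
    rw [← hc] at hsq
    have hA : Continuous fun x => ‖A (fun i : Fin N => m i) w k 1 x‖ := (A_cont _ _ _ _).norm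
    have hI : Integrable (fun x => ‖A (fun i : Fin N => m i) w k 1 x‖ ^ 2) μ := by
      refine Integrable.of_bound (C := 1) (hA.pow 2).aestronglyMeasurable
        (Eventually.of_forall fun x => ?_)
      rw [Real.norm_of_nonneg (pow_nonneg (norm_nonneg _) _)]
      exact pow_le_one₀ (norm_nonneg _) (A_le hw hw1 1 x)
    have hGI : μ.real G ≤ ∫ x, ‖A (fun i : Fin N => m i) w k 1 x‖ ^ 2 ∂μ := by
      have e1 : μ.real G = ∫ x, G.indicator (fun _ => (1 : ℝ)) x ∂μ := by
        rw [integral_indicator_const (1 : ℝ) hGm]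
        simp
      rw [e1]
      refine integral_mono ((integrable_const (1 : ℝ)).indicator hGm) hI fun x => ?_
      by_cases hx : x ∈ G
      · show G.indicator (fun _ => (1 : ℝ)) x ≤ _
        rw [Set.indicator_of_mem hx]
        have hx' : ∀ i : Fin N, m i • x = m 0 • x := by
          intro i
          have h5 : (m i - m 0) • x = 0 := by
            have := mem_iInter.1 (mem_iInter.1 hx (i : ℕ)) 0
            exact this
          rw [sub_smul, sub_eq_zero] at h5
          exact h5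
        have h6 : A (fun i : Fin N => m i) w k 1 x = fourier k (m 0 • x) := by
          unfold A
          simp only [one_mul]
          rw [Finset.sum_congr rfl fun i _ => by rw [hx' i], ← Finset.sum_mul,
            ← Complex.ofReal_sum, hw1, Complex.ofReal_one, one_mul]
        rw [h6, norm_fourier, one_pow]
      · show G.indicator (fun _ => (1 : ℝ)) x ≤ _
        rw [Set.indicator_of_notMem hx]
        positivity
    have h7 : |(((∫ x, ‖A (fun i : Fin N => m i) w k 1 x‖ ^ 2 ∂μ : ℝ) : ℂ) - c).re| ≤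
        2 * (1 / N : ℝ) :=
      (Complex.abs_re_le_norm _).trans (hsq.trans
        (mul_le_mul_of_nonneg_left (badPairs_le μ ν m h1 hN) (by norm_num)))
    rw [Complex.sub_re, Complex.ofReal_re, abs_le] at h7
    linarith [h7.2]
  have hlim : Tendsto (fun N : ℕ => μ.real G - 2 * (1 / N : ℝ)) atTop (𝓝 (μ.real G - 2 * 0)) :=
    tendsto_const_nhds.sub (tendsto_one_div_atTop_nhds_zero_nat.const_mul 2)
  have h8 : μ.real G - 2 * 0 ≤ c.re := by
    refine le_of_tendsto hlim ?_
    filter_upwards [eventually_gt_atTop 0] with N hN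
    exact hstep N hN
  linarith

/-- **The common image is a combination of `δ₀` and Lebesgue measure.** -/
theorem classification (ht : 3 ≤ t) (hσ : ∀ i, σ i = 1 ∨ σ i = -1)
    (hne : ∃ a b, m a ≠ m b)
    (h1 : ∀ a b, a ≠ b → μ.map (fun x : UnitAddCircle => (m a - m b) • x) = ν)
    (h2 : ∀ f : Fin t → ℕ, Function.Injective f →
      μ.map (fun x : UnitAddCircle => (∑ i, σ i * m (f i)) • x) = ν) :
    ν = μ {x | IsOfFinAddOrder x} • Measure.dirac 0 +
      (1 - μ {x | IsOfFinAddOrder x}) • volume := by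
  obtain ⟨a, b, hab⟩ := hne
  have hab' : a ≠ b := fun h => hab (by rw [h])
  set R : ℝ≥0∞ := μ {x | IsOfFinAddOrder x} with hR
  have hR1 : R ≤ 1 := prob_le_one
  have hRt : R ≠ ⊤ := measure_ne_top _ _
  have hRt' : (1 - R) ≠ ⊤ := ne_top_of_le_ne_top ENNReal.one_ne_top tsub_le_self
  have hcoef : ∀ k : ℤ, k ≠ 0 → ∫ x, (fourier k x : ℂ) ∂ν = (R.toReal : ℂ) := by
    intro k hk
    have h3 := upper ht hσ h1 h2 k
    have h4 := lower h1 k
    have h5 : ν.real {x : UnitAddCircle | k • x = 0} ≤ R.toReal := by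
      rw [← h1 a b hab', map_measureReal_apply (measurable_smul_int _) (meas_tors' k)]
      refine ENNReal.toReal_mono hRt (measure_mono fun x hx => ?_)
      have hx' : k • ((m a - m b) • x) = 0 := hx
      show IsOfFinAddOrder x
      rw [isOfFinAddOrder_iff_zsmul_eq_zero]
      refine ⟨k * (m a - m b), mul_ne_zero hk (sub_ne_zero.2 hab), ?_⟩
      rw [mul_smul, hx']
    have h6 : R.toReal ≤ (∫ x, (fourier k x : ℂ) ∂ν).re := h4
    set z : ℂ := ∫ x, (fourier k x : ℂ) ∂ν with hz
    have h7 : ‖z‖ ≤ R.toReal := h3.trans h5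
    have h8 : z.re ≤ ‖z‖ := Complex.re_le_norm z
    have h9 : z.re = R.toReal := le_antisymm (h8.trans h7) h6
    have h10 : ‖z‖ ^ 2 = z.re * z.re + z.im * z.im := by
      rw [← Complex.normSq_eq_norm_sq, Complex.normSq_apply]
    have h11 : 0 ≤ R.toReal := ENNReal.toReal_nonneg
    have h12 : z.im = 0 := by
      have : ‖z‖ = z.re := le_antisymm (h7.trans h6) h8
      rw [this] at h10
      nlinarith [mul_self_nonneg z.im]
    exact Complex.ext (by rw [h9, Complex.ofReal_re]) (by rw [h12, Complex.ofReal_im])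
  haveI : IsFiniteMeasure (R • Measure.dirac (0 : UnitAddCircle)) :=
    Measure.smul_finite _ hRt
  haveI : IsFiniteMeasure ((1 - R) • (volume : Measure UnitAddCircle)) :=
    Measure.smul_finite _ hRt'
  refine Pool.Agent.R202.ext_fourier fun k => ?_
  have hint : ∀ (ρ : Measure UnitAddCircle) [IsFiniteMeasure ρ],
      Integrable (fun x => (fourier k x : ℂ)) ρ := fun ρ _ =>
    Integrable.of_bound (C := 1) (fourier k).continuous.aestronglyMeasurable
      (Eventually.of_forall fun x => (norm_fourier k x).le)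
  rw [integral_add_measure (hint _) (hint _), integral_smul_measure, integral_smul_measure,
    integral_dirac]
  by_cases hk : k = 0
  · subst hk
    have h0 : (volume : Measure UnitAddCircle) univ = 1 := UnitAddCircle.measure_univ
    have h3 : R.toReal + (1 - R).toReal = 1 := by
      rw [ENNReal.toReal_sub_of_le hR1 ENNReal.one_ne_top, ENNReal.toReal_one]
      ring
    simp only [fourier_zero, integral_const, measureReal_def, h0, measure_univ,
      ENNReal.toReal_one, one_smul]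
    rw [← add_smul, h3, one_smul]
  · rw [hcoef k hk, vol_fourier hk, smul_zero, add_zero]
    have : (fourier k (0 : UnitAddCircle) : ℂ) = 1 := by
      rw [fourier_apply, smul_zero, AddCircle.toCircle_zero]
      rfl
    rw [this, Complex.real_smul, mul_one]

end infinite

/-- **Differences and sums.** For an integer `n` let `T_n x = n x` on the circle. No assumption is
made on ergodicity, entropy, or the growth of the multipliers. `σ` is a choice of `t ≥ 3` signs.

(1) Let `m i` (`i` in a finite set) be integers with weights `w i ≥ 0` of sum one and `μ`, `ν`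
probability measures. If `T_n μ = ν` for `n = m i - m j`, except for pairs `(i, j)` of total weight at
most `ε`, and for `n = σ 0 m (f 0) + ... + σ (t - 1) m (f (t - 1))`, except for `t`-tuples `f` of total
weight at most `ε`, then for all `k` and `0 < η ≤ 1` the `k`-th Fourier coefficient of `ν` is at most
`ν {x | 1 - cos (2 π k x) ≤ η} + 2 η + 7 ε / η ^ 2` in absolute value.

(2) For every atomless probability measure `ν` other than Lebesgue measure there is `ε > 0` such that
for all such `m`, `w`, `μ`, `t`, `σ` one of the two exceptional weights exceeds `ε`.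

(3) Let `m : ℕ → ℤ` be any nonconstant sequence. If `T_n μ = ν` for all the differences
`n = m a - m b` (`a ≠ b`) and all the sums `n = σ 0 m (f 0) + ... + σ (t - 1) m (f (t - 1))` with
distinct indices `f 0, ..., f (t - 1)`, then `ν = c δ₀ + (1 - c) λ` where `c` is the mass which `μ`
gives to the torsion points and `λ` is Lebesgue measure. -/
theorem result :
    (∀ (ι : Type) [Fintype ι] (m : ι → ℤ) (w : ι → ℝ), (∀ i, 0 ≤ w i) → ∑ i, w i = 1 →
      ∀ μ ν : Measure UnitAddCircle, IsProbabilityMeasure μ → IsProbabilityMeasure ν →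
      ∀ (t : ℕ) (σ : Fin t → ℤ), 3 ≤ t → (∀ i, σ i = 1 ∨ σ i = -1) →
      ∀ ε : ℝ, badPairs μ ν m w ≤ ε → badTuples σ μ ν m w ≤ ε →
      ∀ (k : ℤ) (η : ℝ), 0 < η → η ≤ 1 →
        ‖∫ x, (fourier k x : ℂ) ∂ν‖ ≤
          ν.real {x : UnitAddCircle | 1 - (fourier k x : ℂ).re ≤ η} + 2 * η + 7 * ε / η ^ 2) ∧
    (∀ ν : Measure UnitAddCircle, IsProbabilityMeasure ν → (∀ x, ν {x} = 0) → ν ≠ volume →
      ∃ ε : ℝ, 0 < ε ∧ ∀ (ι : Type) [Fintype ι] (m : ι → ℤ) (w : ι → ℝ), (∀ i, 0 ≤ w i) →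
      ∑ i, w i = 1 → ∀ μ : Measure UnitAddCircle, IsProbabilityMeasure μ →
      ∀ (t : ℕ) (σ : Fin t → ℤ), 3 ≤ t → (∀ i, σ i = 1 ∨ σ i = -1) →
      ε < badPairs μ ν m w ∨ ε < badTuples σ μ ν m w) ∧
    (∀ μ ν : Measure UnitAddCircle, IsProbabilityMeasure μ → IsProbabilityMeasure ν →
      ∀ (t : ℕ) (σ : Fin t → ℤ), 3 ≤ t → (∀ i, σ i = 1 ∨ σ i = -1) →
      ∀ m : ℕ → ℤ, (∃ a b, m a ≠ m b) →
      (∀ a b, a ≠ b → μ.map (fun x : UnitAddCircle => (m a - m b) • x) = ν) →
      (∀ f : Fin t → ℕ, Function.Injective f →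
        μ.map (fun x : UnitAddCircle => (∑ i, σ i * m (f i)) • x) = ν) →
      ν = μ {x | IsOfFinAddOrder x} • Measure.dirac 0 +
        (1 - μ {x | IsOfFinAddOrder x}) • volume) := by
  refine ⟨?_, ?_, ?_⟩
  · intro ι _ m w hw hw1 μ ν hμ hν t σ ht hσ ε h1 h2 k η hη hη1
    exact ineq μ ν hw hw1 ht σ hσ h1 h2 hη hη1
  · intro ν hν hna hne
    exact rigid ν hna hne
  · intro μ ν hμ hν t σ ht hσ m hne h1 h2
    exact classification ht hσ hne h1 h2

end Pool.Agent.Results.MP_96e181_an.DifferencesAndSums
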