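import Mathlib
import Pool.Agent.H237.Zero.Final
import Pool.Agent.H237.Zero.Semi
import Pool.Agent.H237.Gap.Cond
import Pool.Agent.H237.Torus.Classify
import Pool.Agent.H237.Torus.Example
import Pool.Agent.H237.Mixed.Crit
import Pool.Agent.H237.Mixed.Semi2
import Pool.Agent.H237.Mixed.Select

/-!
# Furstenberg's measure conjecture for semigroups of zero logarithmic density

Let `P` be a set of integers `≥ 2`, with `N(x)` elements up to `x`, which are pairwise coprime or, more
generally, such that no prime divides more than `N(x) ^ (1 - ε)` of the elements up to `x` (`ε > 0`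
fixed, `x` large).  We prove Furstenberg's conjecture for the multiplicative semigroup `⟨P⟩` generated
by `P` (Lebesgue measure is the only atomless probability measure on the circle invariant under
`x ↦ p x` for all `p ∈ P`; no entropy and no ergodicity is assumed) if, for some `β > 1 / 2`,

  `N(x) ≥ exp ((log x) ^ β)` for all large `x`.

More precisely: it suffices that `N(x) ≥ (log x) ^ A` for every `A` and all `x ≥ x(A)`, and that for
arbitrarily large `x` we have `N(x) ≥ exp ((log x) ^ β)`, or that for some `c < 1` and arbitrarily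
large `x` the semigroup `⟨P⟩` has at least `exp (log x / (log log x) ^ c)` elements up to `x`.  So
`⟨P⟩` may have zero logarithmic density (see part (3) of the theorem).  Einsiedler and Fish proved
rigidity for semigroups of polynomial growth: at least `x ^ δ` elements up to `x`, for all large `x`.
Under the same conditions, all ergodic invariant measures on the tori of all dimensions (thus all
joinings of invariant measures) are algebraic.

Proof.  Let `μ` be atomless and invariant, `|μ^(n)| = 4 δ > 0`, `n ≠ 0`.  The proof does not use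
entropy (and neither the theorem of Rudolph nor that of Johnson).  Let `ν` be the law of the
difference of two independent points, and `g(r) = ν {‖x‖ < r}`.

1. Upper bound (files `Mixed`).  For a finite `T ⊂ P` let `F_T(r)` be the set of the points at distance
`< r` from a fraction with denominator `∏ p ∈ T, p` all of whose components are nonzero.  The preimage
of `F_T(r)` under `x ↦ q x`, `q ∉ T`, is contained in the union of `F_T(r / q)` and
`F_(T ∪ q)(r / q)`, so the total mass `σ_t(r)` of the `F_T(r)`, `T ⊂ A`, `#T = t`, satisfies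
`σ_t(r) ≤ σ_t(r / 2) + (t + 1) / (#A - t) * σ_(t + 1)(r / 2)`; for small `r` these sets are disjoint
and `σ_t(r) ≤ 1`.  With sets `A` growing with the scale we get, for `y` large and
`8 t ^ 2 ≤ N(y) ^ (1 / 4)`, that `g(y ^ (- 2 t) / 2) ≤ N(y) ^ (- t / 4)`: a power of the number of the
elements of the semigroup which are products of `t` elements of `P` below `y`.

2. Lower bound (file `Zero.Scale`): for `R ^ 3` coprime multipliers in `[2, z]` and all `Y` which are
large in terms of `z` and `R`, `g (exp (-Y)) ≥ c(δ, n) exp (- C(δ) Y / R)`.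
  * The average `ξ` of the dilates of the character `e(n x)` by the powers `g ^ j`, `j < K`, of one
    more multiplier `g` has small square sums over the fractions with denominator `p ^ m ≤ K`, if the
    order of `g` modulo `p ^ m` is at least `p ^ m / W` (file `Xi`).
  * Among a few elements `g` of `P` one has large order modulo `p ^ m`, for half of all `p`: else too
    many products of them would be torsion elements of `(ℤ / ℓ ^ v) ˣ` for a prime `ℓ ∣ p` (file
    `Torsion`).
  * Moving along a path in the `R ^ 3` directions `x ↦ p ^ m x`, and averaging `ξ` over windows of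
    the path, the mean `∫ ξ dμ`, `|∫ ξ dμ| ≥ 4 δ`, is not changed, but by an inequality of Efron-Stein
    type the window averages can depend only a little on most of the directions; each step which does
    not depend on its direction loses a constant factor of cells only, against the factor `p ^ m`
    for the scale (files `Cells`, `Bad`, `Avg`, `Path`, `Main`).

3. 1 and 2 contradict each other if `log N(y) ≥ (log y) ^ β`, `β > 1 / 2`, `t` is a power of `N(y)` and
`exp Y = 2 y ^ (2 t)`: then `R` can be almost `log Y`, which is larger than `log y / log N(y)`.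

If `P` is not pairwise coprime then a greedy choice (file `Mixed.Select`) gives a pairwise coprime
subset of `P` with at least `N(x) ^ (ε / 2)` elements up to `x`.

On `T ^ d` (files `Torus`), the characters `a` with `a x` of finite order almost surely form a
saturated subgroup of `ℤ ^ d`; the Fourier coefficients of the measure vanish at all others by the
theorem for the circle.
-/

namespace Pool.Agent.Results.MP_96e181_an.SubpolynomialRigidity

open MeasureTheory Set Filter Topology

/-- The number of the elements of `P` up to `x`. -/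
noncomputable def count (P : Set ℕ) (x : ℝ) : ℝ := ({p ∈ P | (p : ℝ) ≤ x}.ncard : ℝ)

/-- The number of the elements up to `x` of the semigroup generated by `P`. -/
noncomputable def semigroupCount (P : Set ℕ) (x : ℝ) : ℝ :=
  ({n ∈ (Submonoid.closure P : Set ℕ) | (n : ℝ) ≤ x}.ncard : ℝ)

/-- For some `ε > 0` and all large `x`, no prime divides more than `(count P x) ^ (1 - ε)` of the
elements of `P` up to `x`. -/
def Spread (P : Set ℕ) : Prop :=
  ∃ ε : ℝ, 0 < ε ∧ ∀ᶠ x : ℝ in atTop, ∀ l : ℕ, l.Prime →
    ({p ∈ P | (p : ℝ) ≤ x ∧ l ∣ p}.ncard : ℝ) ≤ count P x ^ (1 - ε)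

/-- `μ` is invariant under `x ↦ p x` for all `p ∈ P`. -/
def Invariant (P : Set ℕ) (μ : Measure UnitAddCircle) : Prop :=
  ∀ p ∈ P, MeasurePreserving (fun x : UnitAddCircle => p • x) μ μ

/-- The points of order at most `Q`. -/
def SmallOrder (Q : ℕ) : Set UnitAddCircle := {x | ∃ m : ℕ, 1 ≤ m ∧ m ≤ Q ∧ m • x = 0}

/-- Measure rigidity for the action of `P`:

(a) every atomless `P`-invariant probability measure on the circle is Lebesgue measure;

(b) for every continuous `f` and `ε > 0` there is `Q` such that for ALL `P`-invariant probability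
measures `μ` the integral of `f` over the points which are not of order at most `Q` differs by at
most `ε` from the `μ`-mass of these points times the Lebesgue integral of `f`;

(c) on the torus of any dimension `d`, every ergodic measure `μ` of the action of `P` by `x ↦ p x` is
algebraic: there are a closed connected subgroup `H` and an `m ≥ 1` such that `μ` is invariant under
the translations by the elements of `H` and `m x ∈ H` almost surely (so `μ` is a convex combination of
the Haar measures of finitely many translates of `H` by torsion points). -/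
def Rigid (P : Set ℕ) : Prop :=
  (∀ μ : Measure UnitAddCircle, IsProbabilityMeasure μ → (∀ x, μ {x} = 0) →
    Invariant P μ → μ = volume) ∧
  (∀ f : C(UnitAddCircle, ℝ), ∀ ε : ℝ, 0 < ε → ∃ Q : ℕ, ∀ μ : Measure UnitAddCircle,
    IsProbabilityMeasure μ → Invariant P μ →
      |(∫ x in (SmallOrder Q)ᶜ, f x ∂μ) - μ.real (SmallOrder Q)ᶜ * ∫ x, f x| ≤ ε) ∧
  (∀ (d : ℕ) (μ : Measure (Fin d → UnitAddCircle)), IsProbabilityMeasure μ →
    (∀ p ∈ P, MeasurePreserving (fun x : Fin d → UnitAddCircle => p • x) μ μ) →
    (∀ A : Set (Fin d → UnitAddCircle), MeasurableSet A →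
      (∀ p ∈ P, (fun x : Fin d → UnitAddCircle => p • x) ⁻¹' A = A) → μ A = 0 ∨ μ A = 1) →
    ∃ H : AddSubgroup (Fin d → UnitAddCircle),
      IsClosed (H : Set (Fin d → UnitAddCircle)) ∧
      IsConnected (H : Set (Fin d → UnitAddCircle)) ∧
      (∀ h ∈ H, μ.map (fun x => h + x) = μ) ∧ ∃ m : ℕ, 1 ≤ m ∧ ∀ᵐ x ∂μ, m • x ∈ H)

lemma rigid_of_atomless {P : Set ℕ} (hP2 : ∀ p ∈ P, 2 ≤ p) (hco : P.Pairwise Nat.Coprime)
    (hP3 : H237.Gap.Dense3 P)
    (h1 : ∀ μ : Measure UnitAddCircle, IsProbabilityMeasure μ → (∀ x, μ {x} = 0) →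
      Invariant P μ → μ = volume) : Rigid P := by
  have h2 := (H237.Gap.rigid_all hP2 hco hP3).mp h1
  refine ⟨h1, h2, ?_⟩
  intro d μ hμ hinv herg
  exact H237.Torus.classify hP2 h2 μ hinv herg

/-- The case of many elements at arbitrarily large scales. -/
lemma rigid_of_growth {P : Set ℕ} (hP2 : ∀ p ∈ P, 2 ≤ p) (hco : P.Pairwise Nat.Coprime)
    (hR : ∀ A : ℝ, ∀ᶠ x : ℝ in atTop, Real.log x ^ A ≤ count P x) {β : ℝ} (hβ : 1 / 2 < β)
    (h : ∃ᶠ x : ℝ in atTop, Real.exp (Real.log x ^ β) ≤ count P x) : Rigid P := by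
  have h' : ∃ᶠ x : ℝ in atTop, Real.exp (Real.log x ^ (min β 1)) ≤ count P x := by
    refine (h.and_eventually (Real.tendsto_log_atTop.eventually (eventually_ge_atTop 1))).mono ?_
    rintro x ⟨hx, hℓ⟩
    refine le_trans (Real.exp_le_exp.mpr ?_) hx
    exact Real.rpow_le_rpow_of_exponent_le hℓ (min_le_left _ _)
  have hP3 : H237.Gap.Dense3 P := H237.Zero.dense3_of_rich hR
  have hC := H237.Mixed.critU_of_growth hP2 hco hR (lt_min hβ (by norm_num)) (min_le_right _ _) h'
  exact rigid_of_atomless hP2 hco hP3 fun μ hμ hat hinv =>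
    H237.Mixed.rigid hP2 hco hP3 hC μ hat hinv

/-- Rigidity passes to larger sets. -/
lemma rigid_mono {P Q : Set ℕ} (hP2 : ∀ p ∈ P, 2 ≤ p) (hQP : Q ⊆ P) (hQ : Rigid Q) : Rigid P := by
  have hinv : ∀ μ : Measure UnitAddCircle, Invariant P μ → Invariant Q μ :=
    fun μ h p hp => h p (hQP hp)
  have h2 : ∀ f : C(UnitAddCircle, ℝ), ∀ ε : ℝ, 0 < ε → ∃ Q' : ℕ, ∀ μ : Measure UnitAddCircle,
      IsProbabilityMeasure μ → Invariant P μ →
        |(∫ x in (SmallOrder Q')ᶜ, f x ∂μ) - μ.real (SmallOrder Q')ᶜ * ∫ x, f x| ≤ ε := by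
    intro f ε hε
    obtain ⟨Q', hQ'⟩ := hQ.2.1 f ε hε
    exact ⟨Q', fun μ hμ hi => hQ' μ hμ (hinv μ hi)⟩
  refine ⟨fun μ hμ hat hi => hQ.1 μ hμ hat (hinv μ hi), h2, ?_⟩
  intro d μ hμ hi herg
  exact H237.Torus.classify hP2 h2 μ hi herg

/-- The same for sets which need not be pairwise coprime. -/
lemma rigid_of_growth' {P : Set ℕ} (hP2 : ∀ p ∈ P, 2 ≤ p) (hco : P.Pairwise Nat.Coprime ∨ Spread P)
    (hR : ∀ A : ℝ, ∀ᶠ x : ℝ in atTop, Real.log x ^ A ≤ count P x) {β : ℝ} (hβ : 1 / 2 < β)
    (h : ∃ᶠ x : ℝ in atTop, Real.exp (Real.log x ^ β) ≤ count P x) : Rigid P := by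
  rcases hco with hco | ⟨ε, hε, hdiv⟩
  · exact rigid_of_growth hP2 hco hR hβ h
  · set Q : Set ℕ := {n | H237.Mixed.sel P n} with hQ
    have hQP : Q ⊆ P := H237.Mixed.sel_sub P
    have hgr : ∀ᶠ x : ℝ in atTop, count P x ^ (ε / 2) ≤ count Q x :=
      H237.Mixed.sel_growth hP2 hε hdiv hR
    refine rigid_mono hP2 hQP (rigid_of_growth (β := (β + 1 / 2) / 2)
      (fun p hp => hP2 p (hQP hp)) (H237.Mixed.sel_pairwise P) ?_ (by linarith) ?_)
    · intro A
      filter_upwards [hgr, hR (2 * A / ε), Real.tendsto_log_atTop.eventually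
        (eventually_gt_atTop (0 : ℝ))] with x h1 h2 hℓ
      refine le_trans ?_ h1
      have h3 : (Real.log x ^ (2 * A / ε)) ^ (ε / 2) ≤ count P x ^ (ε / 2) :=
        Real.rpow_le_rpow (by positivity) h2 (by positivity)
      rw [← Real.rpow_mul hℓ.le] at h3
      have h4 : 2 * A / ε * (ε / 2) = A := by field_simp
      rwa [h4] at h3
    · refine (h.and_eventually (hgr.and (Real.tendsto_log_atTop.eventually
        (H237.Mixed.rpow_small (show (β + 1 / 2) / 2 < β by linarith)
          (show (0 : ℝ) < ε / 2 by positivity))))).mono ?_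
      rintro x ⟨h1, h2, h3⟩
      refine le_trans ?_ h2
      have h4 : (Real.exp (Real.log x ^ β)) ^ (ε / 2) ≤ count P x ^ (ε / 2) :=
        Real.rpow_le_rpow (by positivity) h1 (by positivity)
      refine le_trans ?_ h4
      rw [← Real.exp_mul]
      apply Real.exp_le_exp.mpr
      linarith

/-- **Rigidity for semigroups of zero logarithmic density.**

(1) A set `P` of integers `≥ 2` which is pairwise coprime or `Spread`, with `count P x ≥ (log x) ^ A` for every `A` and all
large `x` is `Rigid` if for some `β > 1 / 2` and arbitrarily large `x` it has at least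
`exp ((log x) ^ β)` elements up to `x`, or if for some `c < 1` and arbitrarily large `x` the semigroup
generated by `P` has at least `exp (log x / (log log x) ^ c)` elements up to `x`.

(2) A set `P` of pairwise coprime integers `≥ 2` with `count P x ≥ 1000 log log log x` for all
large `x` is `Rigid` if the semigroup generated by `P` has positive upper logarithmic density.

(3) For every `β > 1 / 2` there is a `Rigid` set of primes with at most `exp ((log x) ^ β)` elements up
to `x`, for all large `x`, which generates a semigroup of zero logarithmic density: at most `x ^ ε`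
elements up to `x`, for every `ε > 0` and all large `x`. -/
theorem result :
    (∀ P : Set ℕ, (∀ p ∈ P, 2 ≤ p) → (P.Pairwise Nat.Coprime ∨ Spread P) →
      (∀ A : ℝ, ∀ᶠ x : ℝ in atTop, Real.log x ^ A ≤ count P x) →
      ((∃ β : ℝ, 1 / 2 < β ∧
          ∃ᶠ x : ℝ in atTop, Real.exp (Real.log x ^ β) ≤ count P x) ∨
        ∃ c : ℝ, c < 1 ∧
          ∃ᶠ x : ℝ in atTop, Real.exp (Real.log x / Real.log (Real.log x) ^ c) ≤
            semigroupCount P x) → Rigid P) ∧
    (∀ P : Set ℕ, (∀ p ∈ P, 2 ≤ p) → P.Pairwise Nat.Coprime →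
      (∀ᶠ x : ℝ in atTop, 1000 * Real.log (Real.log (Real.log x)) ≤ count P x) →
      (∃ δ : ℝ, 0 < δ ∧ ∃ᶠ x : ℝ in atTop, x ^ δ ≤ semigroupCount P x) → Rigid P) ∧
    (∀ β : ℝ, 1 / 2 < β → ∃ P : Set ℕ, (∀ p ∈ P, p.Prime) ∧ Rigid P ∧
      (∀ᶠ x : ℝ in atTop, count P x ≤ Real.exp (Real.log x ^ β)) ∧
      ∀ ε : ℝ, 0 < ε → ∀ᶠ x : ℝ in atTop, semigroupCount P x ≤ x ^ ε) := by
  refine ⟨?_, ?_, ?_⟩
  · rintro P hP2 hco hR (⟨β, hβ, h⟩ | ⟨c, hc, h⟩)
    · exact rigid_of_growth' hP2 hco hR hβ h
    · -- the exponent may be taken positive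
      have hc0 : 0 < max c (1 / 2) := lt_max_of_lt_right (by norm_num)
      have hc1 : max c (1 / 2) < 1 := max_lt hc (by norm_num)
      have h' : ∃ᶠ x : ℝ in atTop,
          Real.exp (Real.log x / Real.log (Real.log x) ^ (max c (1 / 2))) ≤
          ({n ∈ (Submonoid.closure P : Set ℕ) | (n : ℝ) ≤ x}.ncard : ℝ) := by
        refine (h.and_eventually ((H237.Zero.tendsto_LL.eventually (eventually_ge_atTop 1)).and
          (eventually_ge_atTop 1))).mono ?_
        rintro x ⟨hx, hV, hx1⟩
        refine le_trans (Real.exp_le_exp.mpr ?_) hx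
        apply div_le_div_of_nonneg_left (Real.log_nonneg hx1) (Real.rpow_pos_of_pos (by linarith) _)
        exact Real.rpow_le_rpow_of_exponent_le hV (le_max_left _ _)
      obtain ⟨β, hβ, _, hf⟩ := H237.Mixed.growth_of_semigroup2 hP2 hc0 hc1 h'
      exact rigid_of_growth' hP2 hco hR hβ hf
  · rintro P hP2 hco hP3 ⟨δ, hδ, hd⟩
    have hC : H237.Zero.Crit P := H237.Zero.crit_of_dense (show 0 < δ / 4 by positivity)
      (H237.Rare.dense_of_upper hP2 hδ hd)
    exact rigid_of_atomless hP2 hco hP3 fun μ hμ hat hinv =>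
      H237.Zero.rigid hP2 hco hP3 hC μ hat hinv
  · intro β hβ
    set β' : ℝ := min β (3 / 4) with hβ'
    have h1 : 1 / 2 < β' := lt_min hβ (by norm_num)
    have h2 : β' < 1 := lt_of_le_of_lt (min_le_right _ _) (by norm_num)
    obtain ⟨P, hprime, ⟨β₁, hβ₁, _, hlow⟩, hup⟩ := H237.Mixed.thin_primes h1
    have hP2 : ∀ p ∈ P, 2 ≤ p := fun p hp => (hprime p hp).two_le
    have hco : P.Pairwise Nat.Coprime := fun p hp q hq hpq =>
      (Nat.coprime_primes (hprime p hp) (hprime q hq)).mpr hpq
    have hsmall : ∀ ε : ℝ, 0 < ε → ∀ᶠ x : ℝ in atTop, count P x < x ^ ε := by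
      intro ε hε
      filter_upwards [hup, Real.tendsto_log_atTop.eventually ((H237.Mixed.rpow_small h2
        (show (0 : ℝ) < ε / 2 by positivity)).and (eventually_gt_atTop 0)),
        eventually_gt_atTop 0] with x hx hℓ hx0
      obtain ⟨hℓ1, hℓ2⟩ := hℓ
      rw [Real.rpow_one] at hℓ1
      refine lt_of_le_of_lt hx ?_
      rw [Real.rpow_def_of_pos hx0]
      apply Real.exp_lt_exp.mpr
      nlinarith
    refine ⟨P, hprime, ?_, ?_, ?_⟩
    · refine rigid_of_growth hP2 hco ?_ hβ₁ hlow.frequently
      intro A
      -- many elements at all scales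
      have h3 : Tendsto (fun ℓ : ℝ => ℓ ^ β₁) atTop atTop := tendsto_rpow_atTop (by linarith)
      have h4 : ∀ᶠ ℓ : ℝ in atTop, A * Real.log ℓ ≤ ℓ ^ β₁ := by
        have h5 := (isLittleO_log_rpow_atTop (show 0 < β₁ by linarith)).bound
          (show (0 : ℝ) < 1 / (|A| + 1) by positivity)
        filter_upwards [h5, eventually_ge_atTop (1 : ℝ)] with ℓ hℓ hℓ1
        rw [Real.norm_of_nonneg (Real.log_nonneg hℓ1), Real.norm_of_nonneg (by positivity),
          one_div_mul_eq_div, le_div_iff₀ (by positivity)] at hℓ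
        have h6 := le_abs_self A
        have h7 := Real.log_nonneg hℓ1
        nlinarith
      filter_upwards [hlow, Real.tendsto_log_atTop.eventually (h4.and
        (eventually_gt_atTop (0 : ℝ)))] with x hx hℓ
      refine le_trans ?_ hx
      rw [Real.rpow_def_of_pos hℓ.2]
      apply Real.exp_le_exp.mpr
      have := hℓ.1
      linarith
    · filter_upwards [hup, Real.tendsto_log_atTop.eventually (eventually_ge_atTop (1 : ℝ))]
        with x hx hℓ
      refine le_trans hx (Real.exp_le_exp.mpr ?_)
      exact Real.rpow_le_rpow_of_exponent_le hℓ (min_le_left _ _)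
    · intro ε hε
      by_contra hcon
      rw [not_eventually] at hcon
      have h5 : ∃ᶠ x : ℝ in atTop,
          x ^ ε ≤ ({n ∈ (Submonoid.closure P : Set ℕ) | (n : ℝ) ≤ x}.ncard : ℝ) :=
        hcon.mono fun x hx => (not_le.mp hx).le
      have h6 := H237.Rare.dense_of_upper hP2 hε h5
      obtain ⟨x, hx1, hx2⟩ := (h6.and_eventually (hsmall (ε / 4) (by positivity))).exists
      exact absurd hx1 (not_le.mpr hx2)

end Pool.Agent.Results.MP_96e181_an.SubpolynomialRigidity
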