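import Mathlib
import Pool.Agent.H237.Gap.Cond

/-!
# For thin semigroups measure rigidity is equivalent to its uniform form for all invariant measures

Let `P` be a set of pairwise coprime integers `≥ 2` with at least `1000 log log log x` elements up
to `x`, for all large `x` (its elements may grow as fast as `exp exp exp (k / 1000)`; for instance
the Fermat numbers).  A probability measure is `P`-invariant if it is invariant under `x ↦ p x` for
all `p ∈ P`; no entropy and no ergodicity is assumed.

1. Furstenberg's conjecture for `P` (Lebesgue measure is the only atomless `P`-invariant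
   probability measure) holds if and only if ALL `P`-invariant probability measures, those on finite
   sets included, are close to a multiple of Lebesgue measure outside the finitely many points of
   small order, uniformly.  So it implies the equidistribution of all large periodic orbits.
2. Unconditionally: the atomless `P`-invariant probability measures form a weak-* compact set, and
   for each nonempty open set `U` there are `c > 0` and `Q` such that every `P`-invariant
   probability measure gives to `U` at least `c` times the mass of the points which are not of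
   order at most `Q`; in particular every finite `P`-invariant set has at least the proportion `c`
   of its points of order greater than `Q` in `U`.

The proof uses the uniform gap of `Pool/Agent/H237/Gap` (see the file `ThinSemigroupGap`), by which
weak limits of `P`-invariant measures without mass at the points of order at most `Q`, `Q → ∞`, have
no atoms, and Furstenberg's theorem on closed invariant sets (from the library of earlier runs,
`Pool.Graph.R_seed8.R477.XQ.Furst`).
-/

namespace Pool.Agent.Results.MP_96e181_an.ThinSemigroupEquidistribution

open MeasureTheory Set Filter Topology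

/-- `P` consists of pairwise coprime integers `≥ 2` and has at least `1000 log log log x` elements
up to `x` for all large `x`. -/
def Multipliers (P : Set ℕ) : Prop :=
  (∀ p ∈ P, 2 ≤ p) ∧ P.Pairwise Nat.Coprime ∧
    ∀ᶠ x : ℝ in atTop,
      1000 * Real.log (Real.log (Real.log x)) ≤ ({p ∈ P | (p : ℝ) ≤ x}.ncard : ℝ)

/-- `μ` is invariant under `x ↦ p x` for all `p ∈ P`. -/
def Invariant (P : Set ℕ) (μ : Measure UnitAddCircle) : Prop :=
  ∀ p ∈ P, MeasurePreserving (fun x : UnitAddCircle => p • x) μ μ

/-- The finite set `O` is permuted by `x ↦ p x` for all `p ∈ P`. -/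
def InvariantSet (P : Set ℕ) (O : Finset UnitAddCircle) : Prop :=
  ∀ p ∈ P, O.image (fun x : UnitAddCircle => p • x) = O

/-- The points of order at most `Q`. -/
def SmallOrder (Q : ℕ) : Set UnitAddCircle := {x | ∃ m : ℕ, 1 ≤ m ∧ m ≤ Q ∧ m • x = 0}

/-- **Rigidity is equivalent to its uniform form; uniform density and compactness.** -/
theorem result (P : Set ℕ) (hP : Multipliers P) :
    -- the equivalence
    ((∀ μ : Measure UnitAddCircle, IsProbabilityMeasure μ → (∀ x, μ {x} = 0) →
        Invariant P μ → μ = volume) ↔
      ∀ f : C(UnitAddCircle, ℝ), ∀ ε : ℝ, 0 < ε → ∃ Q : ℕ, ∀ μ : Measure UnitAddCircle,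
        IsProbabilityMeasure μ → Invariant P μ →
          |(∫ x in (SmallOrder Q)ᶜ, f x ∂μ) - μ.real (SmallOrder Q)ᶜ * ∫ x, f x| ≤ ε) ∧
    -- uniform positive mass of the open sets, for measures and for finite invariant sets
    (∀ U : Set UnitAddCircle, IsOpen U → U.Nonempty → ∃ c : ℝ, 0 < c ∧ ∃ Q : ℕ,
      (∀ μ : Measure UnitAddCircle, IsProbabilityMeasure μ → Invariant P μ →
        c * μ.real (SmallOrder Q)ᶜ ≤ μ.real (U \ SmallOrder Q)) ∧
      (∀ O : Finset UnitAddCircle, InvariantSet P O →
        c * ((O : Set UnitAddCircle) \ SmallOrder Q).ncard ≤
          (((O : Set UnitAddCircle) ∩ U) \ SmallOrder Q).ncard)) ∧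
    -- compactness
    IsCompact {μ : ProbabilityMeasure UnitAddCircle |
      Invariant P (μ : Measure UnitAddCircle) ∧ ∀ x, (μ : Measure UnitAddCircle) {x} = 0} := by
  obtain ⟨hP2, hco, hP3⟩ := hP
  have hP' : H237.Gap.Dense3 P := hP3
  exact ⟨H237.Gap.rigid_all hP2 hco hP',
    fun U hU hUne => H237.Gap.density_sets hP2 hco hP' hU hUne,
    H237.Gap.compact_atomless hP2 hco hP'⟩

end Pool.Agent.Results.MP_96e181_an.ThinSemigroupEquidistribution
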