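import Mathlib
import Pool.Agent.H237.Gap.Finite

/-!
# A uniform gap for very thin infinitely generated semigroups of multiplications

Let `P` be an infinite set of pairwise coprime integers `≥ 2` with at least
`1000 log log log x` elements up to `x`, for all large `x` (the elements of `P` may grow as fast as
`exp exp exp (k / 1000)`; for instance the Fermat numbers `2 ^ 2 ^ k + 1`).  No entropy, no
ergodicity is assumed of the probability measures invariant under `x ↦ p x` for all `p ∈ P`.

* Two multiples `a x`, `b y` of the coordinates of a `P`-invariant joining are equal or at a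
  distance at least `r`, up to a proportion `ε`, where `r = r (P, ε)` depends neither on the joining
  nor on `a`, `b`.
* The Fourier coefficients of all atomless `P`-invariant measures, and the normalised exponential
  sums over all finite `P`-invariant sets, are bounded away from one by the same constant.

Idea of the proof (`Pool/Agent/H237/Gap`).  Let `u_i`, `i ≤ k`, be powers of `k` elements of `P`,
all of size about `e ^ H`, and `U` their product.  A point `x` with `‖U x‖ < e ^ (-H)` is close to a
fraction `b / U`; let `R (x)` be the set of the `i` such that `u_i` does not divide `b`.  By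
invariance the mass of the points with `R (x) ∩ J = ∅` is the mass of the ball about `0` of radius
`e ^ (-H) / ∏ i ∈ J, u_i`, and the mass of the points with `R (x) ⊇ I`, `R (x) ∩ J = ∅` is the mass
of a neighbourhood of the fractions with denominator exactly composed of the `u_i`, `i ∈ I`; these
neighbourhoods are disjoint for different `I` with `#I = #J`.  This gives that `#R (x)` is between
`ε k` and `(1 - ε) k` with probability at most `2 ^ (-c k)` only, which implies an inequality between
the masses of the shells at different scales, with an error `2 ^ (-c k)`, which can be summed over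
all scales.
-/

namespace Pool.Agent.Results.MP_96e181_an.ThinSemigroupGap

open MeasureTheory Set Filter Topology

/-- `P` consists of pairwise coprime integers `≥ 2` and has at least `1000 log log log x` elements
up to `x` for all large `x`. -/
def Multipliers (P : Set ℕ) : Prop :=
  (∀ p ∈ P, 2 ≤ p) ∧ P.Pairwise Nat.Coprime ∧
    ∀ᶠ x : ℝ in atTop,
      1000 * Real.log (Real.log (Real.log x)) ≤ ({p ∈ P | (p : ℝ) ≤ x}.ncard : ℝ)

/-- `μ` is invariant under `x ↦ p x` for all `p ∈ P`. -/
def Invariant (P : Set ℕ) (μ : Measure UnitAddCircle) : Prop :=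
  ∀ p ∈ P, MeasurePreserving (fun x : UnitAddCircle => p • x) μ μ

/-- `κ` is invariant under `(x, y) ↦ (p x, p y)` for all `p ∈ P`. -/
def InvariantJoining (P : Set ℕ) (κ : Measure (UnitAddCircle × UnitAddCircle)) : Prop :=
  ∀ p ∈ P, MeasurePreserving (fun z : UnitAddCircle × UnitAddCircle => (p • z.1, p • z.2)) κ κ

/-- The finite set `O` is permuted by `x ↦ p x` for all `p ∈ P`. -/
def InvariantSet (P : Set ℕ) (O : Finset UnitAddCircle) : Prop :=
  ∀ p ∈ P, O.image (fun x : UnitAddCircle => p • x) = O

/-- **The uniform gap.** -/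
theorem result :
    Multipliers (Set.range Nat.fermatNumber) ∧
    ∀ P : Set ℕ, Multipliers P →
      -- joinings: two multiples of the coordinates are equal or apart
      (∀ ε : ℝ, 0 < ε → ∃ r : ℝ, 0 < r ∧ ∀ κ : Measure (UnitAddCircle × UnitAddCircle),
        IsProbabilityMeasure κ → InvariantJoining P κ → ∀ a b : ℤ,
          κ.real {z | a • z.1 ≠ b • z.2 ∧ ‖a • z.1 - b • z.2‖ < r} ≤
            ε * κ.real {z | a • z.1 ≠ b • z.2}) ∧
      -- the Fourier form, for joinings, atomless measures and finite invariant sets
      (∃ c : ℝ, 0 < c ∧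
        (∀ κ : Measure (UnitAddCircle × UnitAddCircle), IsProbabilityMeasure κ →
          InvariantJoining P κ → ∀ a b : ℤ, c * κ.real {z | a • z.1 ≠ b • z.2} ≤
            1 - (∫ z, (fourier a z.1 : ℂ) * (starRingEnd ℂ) (fourier b z.2) ∂κ).re) ∧
        (∀ μ : Measure UnitAddCircle, IsProbabilityMeasure μ → (∀ x, μ {x} = 0) →
          Invariant P μ → ∀ n : ℤ, n ≠ 0 → ‖∫ x, (fourier n x : ℂ) ∂μ‖ ^ 2 ≤ 1 - c) ∧
        (∀ O : Finset UnitAddCircle, 2 ≤ O.card → InvariantSet P O →
          ‖∑ y ∈ O, (fourier 1 y : ℂ)‖ ≤ (1 - c) * O.card)) := by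
  refine ⟨⟨?_, ?_, H237.Gap.fermat_dense3⟩, ?_⟩
  · rintro _ ⟨n, rfl⟩
    have := Nat.three_le_fermatNumber n
    omega
  · rintro _ ⟨n, rfl⟩ _ ⟨m, rfl⟩ hne
    exact Nat.coprime_fermatNumber_fermatNumber fun h => hne (by rw [h])
  rintro P ⟨hP2, hco, hP⟩
  have hP' : H237.Gap.Dense3 P := hP
  obtain ⟨c₁, hc₁, h₁⟩ := H237.Gap.joining_fourier hP2 hco hP'
  obtain ⟨c₂, hc₂, h₂⟩ := H237.Gap.atomless_gap hP2 hco hP'
  obtain ⟨c₃, hc₃, h₃⟩ := H237.Gap.finite_sets hP2 hco hP'
  refine ⟨fun ε hε => H237.Gap.joining_ball hP2 hco hP' hε,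
    min c₁ (min c₂ c₃), by positivity, ?_, ?_, ?_⟩
  · intro κ hκ hinv a b
    refine le_trans (mul_le_mul_of_nonneg_right (min_le_left _ _) measureReal_nonneg)
      (h₁ κ hκ hinv a b)
  · intro μ hμ hat hinv n hn
    have := h₂ μ hμ hat hinv n hn
    have h4 : min c₁ (min c₂ c₃) ≤ c₂ := le_trans (min_le_right _ _) (min_le_left _ _)
    linarith
  · intro O hO hinv
    refine le_trans (h₃ O hO hinv) ?_
    have h4 : min c₁ (min c₂ c₃) ≤ c₃ := le_trans (min_le_right _ _) (min_le_right _ _)
    have h5 : (0 : ℝ) ≤ O.card := by positivity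
    nlinarith

end Pool.Agent.Results.MP_96e181_an.ThinSemigroupGap
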